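import Pool.Agent.H84.ND.Targets3

/-!
# MP_70ba79_ag (board `ndc_modules`): the target `T_BGA`
-/

set_option autoImplicit false

namespace Pool.Agent.H29.ND

open MvPolynomial SC Pool.Agent.H27.LV Pool.Agent.H84.SM Pool.Agent.H84.ND

theorem bga_first {k : Type} [Field k] (H1 H2 : MvPolynomial (Fin 3) k) (s : Fin 3 → k)
    (i : Fin 3) : eval s (pderiv i (H1 * H2)) =
      eval s H1 * eval s (pderiv i H2) + eval s H2 * eval s (pderiv i H1) := by
  simp only [Derivation.leibniz, map_add, smul_eq_mul, map_mul]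

theorem bga_second {k : Type} [Field k] (H1 H2 : MvPolynomial (Fin 3) k) (s y : Fin 3 → k)
    (i : Fin 3) : ∑ j, eval s (pderiv i (pderiv j (H1 * H2))) * y j =
      eval s H2 * ∑ j, eval s (pderiv i (pderiv j H1)) * y j +
      eval s H1 * ∑ j, eval s (pderiv i (pderiv j H2)) * y j +
      eval s (pderiv i H1) * ∑ j, eval s (pderiv j H2) * y j +
      eval s (pderiv i H2) * ∑ j, eval s (pderiv j H1) * y j := by
  simp only [Fin.sum_univ_three, Derivation.leibniz, map_add, smul_eq_mul, map_mul]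
  ring

/-- not every vector is a multiple of one vector -/
theorem bga_line {k : Type} [Field k] (s : Fin 3 → k) (h : ∀ y : Fin 3 → k, ∃ c : k, y = c • s) :
    False := by
  obtain ⟨a, ha⟩ := h (Pi.single 0 1)
  obtain ⟨b, hb⟩ := h (Pi.single 1 1)
  have a0 := congrFun ha 0
  have a1 := congrFun ha 1
  have b0 := congrFun hb 0
  have b1 := congrFun hb 1
  simp [Pi.smul_apply, smul_eq_mul] at a0 a1 b0 b1
  rcases a1 with h1 | h1
  · rw [h1, zero_mul] at a0
    exact one_ne_zero a0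
  · rw [h1, mul_zero] at b1
    exact one_ne_zero b1

/-- two gradients with a common zero, at a node of the product, are independent -/
theorem bga_cr {k : Type} [Field k] (H1 H2 : MvPolynomial (Fin 3) k) (s : Fin 3 → k)
    (hs : s ≠ 0) (h1 : eval s H1 = 0) (h2 : eval s H2 = 0)
    (hN : ∀ s, Sing (H1 * H2) s → Node (H1 * H2) s) : cr (gr H1 s) (gr H2 s) ≠ 0 := by
  intro h0
  have hS : Sing (H1 * H2) s := ⟨hs, fun i => by rw [bga_first, h1, h2]; ring⟩
  have hK := (hN s hS).ker
  set u : Fin 3 → k := fun i => eval s (pderiv i H1) with hu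
  set v : Fin 3 → k := fun i => eval s (pderiv i H2) with hv
  have hK2 : ∀ y : Fin 3 → k, (∀ i, u i * (∑ j, v j * y j) + v i * (∑ j, u j * y j) = 0) →
      ∃ c : k, y = c • s := by
    intro y hy
    refine hK y fun i => ?_
    rw [bga_second, h1, h2]
    have h3 := hy i
    simp only [hu, hv] at h3
    rw [zero_mul, zero_mul, zero_add, zero_add]
    exact h3
  have hcr : ∀ i, u (i + 1) * v (i + 2) - u (i + 2) * v (i + 1) = 0 := by
    intro i
    have h3 := congrFun h0 i
    simp only [cr, gr, Pi.zero_apply] at h3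
    simp only [hu, hv]
    rw [← coe_aeval_eq_eval]
    exact h3
  have c0 := hcr 0
  have c1 := hcr 1
  have c2 := hcr 2
  have e1 : ((0 : Fin 3) + 1) = 1 := rfl
  have e2 : ((0 : Fin 3) + 2) = 2 := rfl
  have e3 : ((1 : Fin 3) + 1) = 2 := rfl
  have e4 : ((1 : Fin 3) + 2) = 0 := rfl
  have e5 : ((2 : Fin 3) + 1) = 0 := rfl
  have e6 : ((2 : Fin 3) + 2) = 1 := rfl
  rw [e1, e2] at c0
  rw [e3, e4] at c1
  rw [e5, e6] at c2
  have hm : ∀ z : Fin 3 → k, ∃ c : k, cr u z = c • s := by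
    intro z
    refine hK2 _ fun i => ?_
    simp only [Fin.sum_univ_three, cr, e1, e2, e3, e4, e5, e6]
    linear_combination (- u i * z 0) * c0 + (- u i * z 1) * c1 + (- u i * z 2) * c2
  have hu0 : u = 0 := by
    obtain ⟨a, ha⟩ := hm ![1, 0, 0]
    obtain ⟨b, hb⟩ := hm ![0, 1, 0]
    obtain ⟨c, hc⟩ := hm ![0, 0, 1]
    have a0 := congrFun ha 0
    have a1 := congrFun ha 1
    have a2 := congrFun ha 2
    have b0 := congrFun hb 0
    have b1 := congrFun hb 1
    have b2 := congrFun hb 2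
    have d0 := congrFun hc 0
    have d1 := congrFun hc 1
    simp only [cr, e1, e2, e3, e4, e5, e6, Pi.smul_apply, smul_eq_mul, Matrix.cons_val_zero,
      Matrix.cons_val_one, Matrix.cons_val] at a0 a1 a2 b0 b1 b2 d0 d1
    have g0 : u 0 * u 0 = 0 := by
      linear_combination u 0 * b2 - (b * s 2) * d1 + (c * s 2) * b1
    have g1 : u 1 * u 1 = 0 := by
      linear_combination u 1 * d0 - (c * s 0) * a2 + (c * s 2) * a0
    have g2 : u 2 * u 2 = 0 := by
      linear_combination u 2 * a1 - (a * s 1) * b0 + (b * s 1) * a0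
    funext i
    rw [Pi.zero_apply]
    fin_cases i
    · exact mul_self_eq_zero.mp g0
    · exact mul_self_eq_zero.mp g1
    · exact mul_self_eq_zero.mp g2
  refine bga_line s fun y => hK2 y fun i => ?_
  rw [hu0]
  simp

theorem pf_BGA (hBEZ : Pool.Agent.H84.ND.T_BEZ) : Pool.Agent.H84.ND.T_BGA := by
  intro k _ _ _ H1 H2 a b hH1 hH2 h1 h2 hN
  obtain ⟨T, hT1, hT2, hT3⟩ := hBEZ k H1 H2 a b hH1 hH2 h1 h2
    (fun s hs e1 e2 => bga_cr H1 H2 s hs e1 e2 hN)
  refine ⟨T, fun s hs => ?_, hT2, hT3⟩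
  obtain ⟨h3, h4, h5⟩ := hT1 s hs
  exact ⟨h3, fun i => by rw [bga_first, h4, h5]; ring⟩

end Pool.Agent.H29.ND
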