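import Pool.Agent.H29.ND.BGA
import Pool.Agent.H96.SM.IRR

/-!
# MP_70ba79_ag (board `ndc_modules`): the target `T_BGC`
-/

set_option autoImplicit false

namespace Pool.Agent.H29.ND

open MvPolynomial SC Pool.Agent.H27.LV Pool.Agent.H84.SM Pool.Agent.H84.ND

theorem bgc_unit {k : Type} [Field k] (p : MvPolynomial (Fin 3) k) (h0 : p ≠ 0)
    (h : p.IsHomogeneous 0) : IsUnit p := by
  rw [MvPolynomial.isUnit_iff_totalDegree_of_isReduced]
  have h1 : p.totalDegree = 0 := h.totalDegree h0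
  refine ⟨?_, h1⟩
  rw [isUnit_iff_ne_zero]
  intro h2
  apply h0
  rw [MvPolynomial.totalDegree_eq_zero_iff_eq_C] at h1
  rw [h1, h2, C_0]

theorem bgc_not_unit {k : Type} [Field k] (p : MvPolynomial (Fin 3) k) (n : ℕ) (hn : 1 ≤ n)
    (h0 : p ≠ 0) (h : p.IsHomogeneous n) : ¬ IsUnit p := by
  intro hu
  rw [MvPolynomial.isUnit_iff_totalDegree_of_isReduced] at hu
  have h1 : p.totalDegree = n := h.totalDegree h0
  omega

/-- a singular point is a zero -/
theorem bgc_euler {k : Type} [Field k] [CharZero k] (p : MvPolynomial (Fin 3) k) (n : ℕ)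
    (hn : 1 ≤ n) (h : p.IsHomogeneous n) (s : Fin 3 → k)
    (hs : ∀ i, eval s (pderiv i p) = 0) : eval s p = 0 := by
  have h1 := congrArg (eval s) h.sum_X_mul_pderiv
  rw [map_sum, Finset.sum_eq_zero (fun i _ => by rw [map_mul, hs i, mul_zero]), nsmul_eq_mul,
    map_mul, map_natCast] at h1
  rcases mul_eq_zero.mp h1.symm with h2 | h2
  · exact absurd (Nat.cast_eq_zero.mp h2) (by omega)
  · exact h2

theorem bgc_arith (d m e c : ℕ) (hd : 12 ≤ d) (hde : m + e = d) (hm : 4 ≤ m) (he : 4 ≤ e)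
    (h1 : m * e ≤ c) (h2 : c + 6 ≤ 3 * d) : False := by
  obtain ⟨m', rfl⟩ := Nat.exists_eq_add_of_le hm
  obtain ⟨e', rfl⟩ := Nat.exists_eq_add_of_le he
  nlinarith [Nat.zero_le (m' * e')]

theorem bgc_factor {k : Type} [Field k] (G H1 A B : MvPolynomial (Fin 3) k) (d m al be : ℕ)
    (hd : 12 ≤ d) (hm : m ≤ 3) (hGH : G = H1 * (A * B)) (hH1 : H1.IsHomogeneous m)
    (hmax : ∀ n, (n + 4 ≤ d ∧ ∃ H1 H2 : MvPolynomial (Fin 3) k, G = H1 * H2 ∧
      H1.IsHomogeneous n ∧ H2.IsHomogeneous (d - n)) → n ≤ m)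
    (hA : A.IsHomogeneous al) (hB : B.IsHomogeneous be) (hab : al + be = d - m)
    (h1 : 1 ≤ al) (hle : al ≤ be) : False := by
  by_cases h4 : m + al + 4 ≤ d
  · have h5 := hmax (m + al) ⟨h4, H1 * A, B, by rw [hGH, mul_assoc], hH1.mul hA, by
      have h6 : d - (m + al) = be := by omega
      rw [h6]
      exact hB⟩
    omega
  · omega

theorem pf_BGC (hBGA : Pool.Agent.H84.ND.T_BGA) : Pool.Agent.H84.ND.T_BGC := by
  intro k _ _ _ G d hd hG hsq hN hT
  classical
  have hG0 : G ≠ 0 := hsq.ne_zero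
  let P : ℕ → Prop := fun n => n + 4 ≤ d ∧ ∃ H1 H2 : MvPolynomial (Fin 3) k, G = H1 * H2 ∧
    H1.IsHomogeneous n ∧ H2.IsHomogeneous (d - n)
  have hP0 : P 0 := ⟨by omega, 1, G, by rw [one_mul], isHomogeneous_one _ _, hG⟩
  have hPm : P (Nat.findGreatest P d) := Nat.findGreatest_spec (Nat.zero_le d) hP0
  have hmax : ∀ n, P n → n ≤ Nat.findGreatest P d := fun n hn =>
    Nat.le_findGreatest (by have := hn.1; omega) hn
  generalize Nat.findGreatest P d = m at hPm hmax
  obtain ⟨hm4, H1, H2, hGH, hH1, hH2⟩ := hPm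
  have h10 : H1 ≠ 0 := by
    rintro rfl
    exact hG0 (by rw [hGH, zero_mul])
  have h20 : H2 ≠ 0 := by
    rintro rfl
    exact hG0 (by rw [hGH, mul_zero])
  have hm3 : m ≤ 3 := by
    by_contra hc
    obtain ⟨T, hT1, hT2, hT3⟩ := hBGA k H1 H2 m (d - m) hH1 hH2 h10 h20 (by
      rw [← hGH]
      exact hN)
    exact bgc_arith d m (d - m) T.card hd (by omega) (by omega) (by omega) hT3
      (hT T (by rw [hGH]; exact hT1) hT2)
  refine ⟨H2, H1, d - m, m, by rw [hGH, mul_comm], ⟨by omega, hH2, ?_⟩, hH1, by omega, hm3, ?_⟩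
  · rw [irreducible_iff]
    refine ⟨bgc_not_unit H2 (d - m) (by omega) h20 hH2, fun A B hAB => ?_⟩
    have hA0 : A ≠ 0 := by
      rintro rfl
      exact h20 (by rw [hAB, zero_mul])
    have hB0 : B ≠ 0 := by
      rintro rfl
      exact h20 (by rw [hAB, mul_zero])
    obtain ⟨al, be, hab, hA, hB⟩ := Pool.Agent.H96.SM.homog_mul (hAB ▸ hH2) hA0 hB0
    by_contra hc
    push Not at hc
    have ha : 1 ≤ al := by
      by_contra h5
      have h6 : al = 0 := by omega
      exact hc.1 (bgc_unit A hA0 (h6 ▸ hA))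
    have hb : 1 ≤ be := by
      by_contra h5
      have h6 : be = 0 := by omega
      exact hc.2 (bgc_unit B hB0 (h6 ▸ hB))
    rcases le_total al be with h7 | h7
    · exact bgc_factor G H1 A B d m al be hd hm3 (by rw [hGH, hAB]) hH1 hmax hA hB hab ha h7
    · exact bgc_factor G H1 B A d m be al hd hm3 (by rw [hGH, hAB, mul_comm A B]) hH1 hmax hB hA
        (by omega) hb h7
  · have hSS : ∀ s, Sing H2 s → Sing G s := by
      intro s hs
      have h3 := bgc_euler H2 (d - m) (by omega) hH2 s hs.2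
      exact ⟨hs.1, fun i => by rw [hGH, bga_first, h3, hs.2 i]; ring⟩
    refine ⟨fun s hs => ⟨hs, fun y hy => ?_⟩, hSS⟩
    refine (hN s (hSS s hs)).ker y fun i => ?_
    have h3 := bgc_euler H2 (d - m) (by omega) hH2 s hs.2
    have h4 : ∑ j, eval s (pderiv j H2) * y j = 0 :=
      Finset.sum_eq_zero fun j _ => by rw [hs.2 j, zero_mul]
    rw [hGH, bga_second, h3, hy i, h4, hs.2 i]
    ring

end Pool.Agent.H29.ND
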