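import Pool.Agent.H84.ND.Targets2
import Pool.Agent.H74.SM.CONN
import Pool.Agent.H54.SM.FDN
import Pool.Agent.H78.SM.RSB

/-!
# CSA: the cubic part of a section of weight 3 and very negative twist has no poles
-/

set_option autoImplicit false

namespace Pool.Agent.H29.ND

open MvPolynomial SC Pool.Agent.H27.LV Pool.Agent.H84.SM Pool.Agent.H84.ND
open Pool.Agent.H74.SM (exists_xa wx_xa)
open Pool.Agent.H54.SM (SS_of SS_mul SS_pow)
open Pool.Agent.H78.SM (e6 e6_inl e6_inr e6_x)

section

variable {k : Type} [Field k] {L : Type} [Field L] [Algebra k L]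

/-- `x` is replaced by the generic point of the curve -/
noncomputable def eL (c : Fin 3 → L) : A2 k →ₐ[k] MvPolynomial (Fin 3) L :=
  aeval (Sum.elim (fun i => C (c i)) X)

theorem eL_xa (c : Fin 3 → L) (P : MvPolynomial (Fin 3) k) :
    eL c (aeval xa P : A2 k) = C (aeval c P) := by
  have h : (eL (k := k) c).comp (aeval xa) =
      (IsScalarTower.toAlgHom k L (MvPolynomial (Fin 3) L)).comp (aeval c) := by
    refine MvPolynomial.algHom_ext fun i => ?_
    rw [AlgHom.comp_apply, AlgHom.comp_apply, aeval_X, aeval_X]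
    unfold eL xa
    rw [aeval_X]
    rfl
  exact DFunLike.congr_fun h P

theorem eL_ya (c : Fin 3 → L) (i : Fin 3) : eL c (ya (k := k) i) = X i := by
  unfold eL ya
  rw [aeval_X]
  rfl

/-- the value of `e6` at the generic point -/
theorem eL_e6 (c : Fin 3 → L) (p : A2 k) :
    eL c p = map ((aeval c : MvPolynomial (Fin 3) k →ₐ[k] L) : MvPolynomial (Fin 3) k →+* L)
      (e6 p) := by
  induction p using MvPolynomial.induction_on with
  | C a =>
    have h2 : e6 (C a : A2 k) = C (C a) := (e6 (k := k)).commutes a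
    rw [h2, map_C]
    unfold eL
    rw [aeval_C]
    show _ = C (aeval c (C a))
    rw [aeval_C]
    rfl
  | add p q hp hq => rw [map_add, map_add, map_add, hp, hq]
  | mul_X p j hp =>
    rw [map_mul, map_mul, map_mul, hp]
    congr 1
    rcases j with j | j
    · rw [e6_inl, map_C]
      unfold eL
      rw [aeval_X]
      show C (c j) = C (aeval c (X j))
      rw [aeval_X]
    · rw [e6_inr, map_X]
      unfold eL
      rw [aeval_X]
      rfl

theorem dvd_of_eL {G : MvPolynomial (Fin 3) k} {c : Fin 3 → L} (hc : GenPt G c) {p : A2 k}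
    (h : eL c p = 0) : gA G ∣ p := by
  have h1 : (C G : MvPolynomial (Fin 3) (MvPolynomial (Fin 3) k)) ∣ e6 p := by
    rw [C_dvd_iff_dvd_coeff]
    intro m
    rw [← hc]
    rw [eL_e6] at h
    have h2 := congrArg (coeff m) h
    rw [coeff_map, coeff_zero] at h2
    exact h2
  unfold gA
  rw [← e6_x] at h1
  have h2 := map_dvd (e6 (k := k)).symm h1
  simpa using h2

theorem eL_pderiv (c : Fin 3 → L) (i : Fin 3) (p : A2 k) :
    eL c (pderiv (Sum.inr i) p) = pderiv i (eL c p) := by
  induction p using MvPolynomial.induction_on with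
  | C a =>
    rw [pderiv_C, map_zero]
    unfold eL
    rw [aeval_C]
    exact (pderiv_C).symm
  | add p q hp hq => rw [map_add, map_add, hp, hq, map_add, map_add]
  | mul_X p j hp =>
    rw [Derivation.leibniz, map_add, smul_eq_mul, smul_eq_mul, map_mul, map_mul, map_mul, hp,
      Derivation.leibniz, smul_eq_mul, smul_eq_mul]
    congr 2
    rcases j with j | j
    · rw [pderiv_X_of_ne (by simp), map_zero]
      unfold eL
      rw [aeval_X]
      exact (pderiv_C).symm
    · unfold eL
      rw [aeval_X]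
      show _ = pderiv i (X j)
      by_cases hij : j = i
      · subst hij
        rw [pderiv_X_self, pderiv_X_self, map_one]
      · rw [pderiv_X_of_ne hij, pderiv_X_of_ne, map_zero]
        intro h
        exact hij (Sum.inr_injective h)

/-- the value at `y = 0` of the third derivative -/
noncomputable def D3 (b : MvPolynomial (Fin 3) L) (p q r : Fin 3) : L :=
  eval (fun _ => 0) (pderiv p (pderiv q (pderiv r b)))

/-- third derivatives of an element of bidegree `(e, 3)` are values of forms of degree `e` -/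
theorem D3_mem {c : Fin 3 → L} {e : ℕ} {β : A2 k} (hβ : BH e 3 β) (p q r : Fin 3) :
    D3 (eL c β) p q r ∈ SS (k := k) c e := by
  unfold D3
  rw [← eL_pderiv, ← eL_pderiv, ← eL_pderiv]
  have h1 : IsWeightedHomogeneous wy (pderiv (Sum.inr p) (pderiv (Sum.inr q)
      (pderiv (Sum.inr r) β))) 0 := by
    refine IsWeightedHomogeneous.pderiv (n := 1) ?_ rfl
    refine IsWeightedHomogeneous.pderiv (n := 2) ?_ rfl
    exact IsWeightedHomogeneous.pderiv (n := 3) hβ.2 rfl
  have h2 : IsWeightedHomogeneous wx (pderiv (Sum.inr p) (pderiv (Sum.inr q)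
      (pderiv (Sum.inr r) β))) e := by
    refine IsWeightedHomogeneous.pderiv (n := e) ?_ rfl
    refine IsWeightedHomogeneous.pderiv (n := e) ?_ rfl
    exact IsWeightedHomogeneous.pderiv (n := e) hβ.1 rfl
  obtain ⟨P, hP⟩ := exists_xa h1
  rw [← hP] at h2 ⊢
  rw [eL_xa, eval_C]
  exact SS_of (wx_xa.1 h2)

theorem eL_hom {c : Fin 3 → L} {e : ℕ} {β : A2 k} (hβ : BH e 3 β) :
    (eL c β).IsHomogeneous 3 := by
  rw [β.as_sum, map_sum]
  refine IsHomogeneous.sum _ _ _ fun m hm => ?_
  have h1 := hβ.2 (mem_support_iff.1 hm)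
  rw [Finsupp.weight_apply, Finsupp.sum_fintype _ _ (fun i => by rw [zero_smul]),
    Fintype.sum_sum_type] at h1
  have h2 : ∑ i : Fin 3, m (Sum.inr i) = 3 := by
    simpa [wy] using h1
  unfold eL
  rw [aeval_monomial, Finsupp.prod_fintype _ _ (fun i => by rw [pow_zero]),
    Fintype.prod_sum_type]
  have h3 : (∏ i : Fin 3, (Sum.elim (fun i => C (c i)) X (Sum.inl i) :
      MvPolynomial (Fin 3) L) ^ m (Sum.inl i)).IsHomogeneous 0 := by
    have h4 := IsHomogeneous.prod Finset.univ
      (fun i : Fin 3 => (C (c i) : MvPolynomial (Fin 3) L) ^ m (Sum.inl i)) (fun _ => 0)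
      (fun i _ => by
        have h5 := (isHomogeneous_C (Fin 3) (c i)).pow (m (Sum.inl i))
        rwa [zero_mul] at h5)
    rwa [Finset.sum_const_zero] at h4
  have h6 : (∏ i : Fin 3, (Sum.elim (fun i => C (c i)) X (Sum.inr i) :
      MvPolynomial (Fin 3) L) ^ m (Sum.inr i)).IsHomogeneous 3 := by
    have h4 := IsHomogeneous.prod Finset.univ
      (fun i : Fin 3 => (X i : MvPolynomial (Fin 3) L) ^ m (Sum.inr i)) (fun i => m (Sum.inr i))
      (fun i _ => by
        have h5 := (isHomogeneous_X L i).pow (m (Sum.inr i))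
        rwa [one_mul] at h5)
    rwa [h2] at h4
  have h7 : (algebraMap k (MvPolynomial (Fin 3) L) (coeff m β)).IsHomogeneous 0 :=
    isHomogeneous_C (Fin 3) (algebraMap k L (coeff m β))
  have h8 := h7.mul (h3.mul h6)
  rwa [zero_add, zero_add] at h8

/-- a cubic form is determined by its third derivatives -/
theorem zero_of_D3 [CharZero L] {b : MvPolynomial (Fin 3) L} (hb : b.IsHomogeneous 3)
    (h : ∀ p q r, D3 b p q r = 0) : b = 0 := by
  have key : ∀ (n : ℕ) (a : MvPolynomial (Fin 3) L), a.IsHomogeneous (n + 1) →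
      (∀ i, pderiv i a = 0) → a = 0 := by
    intro n a ha h1
    have h2 := ha.sum_X_mul_pderiv
    rw [Finset.sum_eq_zero fun i _ => by rw [h1 i, mul_zero]] at h2
    rw [nsmul_eq_mul] at h2
    rcases mul_eq_zero.1 h2.symm with h3 | h3
    · exfalso
      have h4 : ((n + 1 : ℕ) : MvPolynomial (Fin 3) L) ≠ 0 := Nat.cast_ne_zero.2 (by omega)
      exact h4 h3
    · exact h3
  refine key 2 b hb fun r => key 1 _ (hb.pderiv) fun q => key 0 _ (hb.pderiv.pderiv) fun p => ?_
  have h1 : (pderiv p (pderiv q (pderiv r b))).IsHomogeneous 0 := hb.pderiv.pderiv.pderiv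
  rw [← totalDegree_zero_iff_isHomogeneous, totalDegree_eq_zero_iff_eq_C] at h1
  have h2 := h p q r
  unfold D3 at h2
  rw [h1, eval_C] at h2
  rw [h1, h2, C_0]

/-- third derivatives of `λ ^ 2 o` and of `λ ^ 3 o` -/
theorem D3_sq (g : Fin 3 → L) (o : MvPolynomial (Fin 3) L) (p q r : Fin 3) :
    D3 ((∑ i, C (g i) * X i) ^ 2 * o) p q r =
      2 * (g p * g q * eval (fun _ => 0) (pderiv r o) +
        g p * g r * eval (fun _ => 0) (pderiv q o) + g q * g r * eval (fun _ => 0) (pderiv p o)) := by
  have hl : ∀ i, pderiv i (∑ i, C (g i) * X i : MvPolynomial (Fin 3) L) = C (g i) := by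
    intro i
    rw [map_sum, Finset.sum_eq_single i]
    · rw [pderiv_C_mul, pderiv_X_self, mul_one]
    · intro j _ hj
      rw [pderiv_C_mul, pderiv_X_of_ne hj, mul_zero]
    · intro h
      exact absurd (Finset.mem_univ i) h
  have h0 : eval (fun _ => 0) (∑ i, C (g i) * X i : MvPolynomial (Fin 3) L) = 0 := by
    rw [map_sum]
    exact Finset.sum_eq_zero fun i _ => by rw [map_mul, eval_X, mul_zero]
  generalize (∑ i, C (g i) * X i : MvPolynomial (Fin 3) L) = lam at hl h0
  unfold D3
  rw [pow_two]
  simp only [Derivation.leibniz, smul_eq_mul, map_add, map_mul, hl, pderiv_C, map_zero, h0,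
    eval_C]
  ring

theorem D3_cu (g : Fin 3 → L) (o : MvPolynomial (Fin 3) L) (p q r : Fin 3) :
    D3 ((∑ i, C (g i) * X i) ^ 3 * o) p q r = 6 * (g p * g q * g r * eval (fun _ => 0) o) := by
  have hl : ∀ i, pderiv i (∑ i, C (g i) * X i : MvPolynomial (Fin 3) L) = C (g i) := by
    intro i
    rw [map_sum, Finset.sum_eq_single i]
    · rw [pderiv_C_mul, pderiv_X_self, mul_one]
    · intro j _ hj
      rw [pderiv_C_mul, pderiv_X_of_ne hj, mul_zero]
    · intro h
      exact absurd (Finset.mem_univ i) h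
  have h0 : eval (fun _ => 0) (∑ i, C (g i) * X i : MvPolynomial (Fin 3) L) = 0 := by
    rw [map_sum]
    exact Finset.sum_eq_zero fun i _ => by rw [map_mul, eval_X, mul_zero]
  generalize (∑ i, C (g i) * X i : MvPolynomial (Fin 3) L) = lam at hl h0
  unfold D3
  rw [pow_succ, pow_two]
  simp only [Derivation.leibniz, smul_eq_mul, map_add, map_mul, hl, pderiv_C, map_zero, h0,
    eval_C]
  ring

theorem hc_mul {u v : MvPolynomial (Fin 3) k} {e : ℕ} (hv : v.IsHomogeneous e) (n : ℕ) :
    homogeneousComponent (n + e) (u * v) = homogeneousComponent n u * v := by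
  conv_lhs => rw [← sum_homogeneousComponent u]
  rw [Finset.sum_mul, map_sum]
  have h1 : ∀ i : ℕ, homogeneousComponent (n + e) (homogeneousComponent i u * v) =
      if n = i then homogeneousComponent i u * v else 0 := by
    intro i
    rw [homogeneousComponent_of_mem (n := i + e)
      ((homogeneousComponent_isHomogeneous i u).mul hv)]
    by_cases h : n = i
    · rw [if_pos h, if_pos (by omega)]
    · rw [if_neg h, if_neg (by omega)]
  rw [Finset.sum_congr rfl fun i _ => h1 i, Finset.sum_ite_eq]
  by_cases h : n ∈ Finset.range (u.totalDegree + 1)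
  · rw [if_pos h]
  · rw [if_neg h, homogeneousComponent_eq_zero, zero_mul]
    rw [Finset.mem_range] at h
    omega

theorem hc_mul0 {u v : MvPolynomial (Fin 3) k} {e : ℕ} (hv : v.IsHomogeneous e) (n : ℕ)
    (hn : n < e) : homogeneousComponent n (u * v) = 0 := by
  conv_lhs => rw [← sum_homogeneousComponent u]
  rw [Finset.sum_mul, map_sum]
  refine Finset.sum_eq_zero fun i _ => ?_
  rw [homogeneousComponent_of_mem (n := i + e)
    ((homogeneousComponent_isHomogeneous i u).mul hv), if_neg (by omega)]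

/-- the homogeneous part of a membership in the Jacobian ideal, at the generic point -/
theorem jac_mem {G : MvPolynomial (Fin 3) k} {d : ℕ} (hd : 1 ≤ d) (hG : G.IsHomogeneous d)
    {r N : ℕ} {f : MvPolynomial (Fin 3) k} (hf : f.IsHomogeneous r) (c : Fin 3 → L) (j : Fin 3)
    (h : X j ^ N * f ∈ Ideal.span (Set.range fun i => pderiv i G)) :
    ∃ p : Fin 3 → L, (∀ a, p a ∈ SS (k := k) c (N + r - ((d : ℤ) - 1))) ∧
      c j ^ N * aeval c f = ∑ a, p a * gr G c a := by
  obtain ⟨u, hu⟩ := (Ideal.mem_span_range_iff_exists_fun).1 h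
  have hXf : (X j ^ N * f).IsHomogeneous (N + r) := by
    have h1 := ((isHomogeneous_X k j).pow N).mul hf
    rwa [one_mul] at h1
  have hcomp : ∀ a : Fin 3, ∃ w : MvPolynomial (Fin 3) k,
      aeval c w ∈ SS (k := k) c (N + r - ((d : ℤ) - 1)) ∧
      homogeneousComponent (N + r) (u a * pderiv a G) = w * pderiv a G := by
    intro a
    have hGa : (pderiv a G).IsHomogeneous (d - 1) := hG.pderiv
    by_cases hle : d - 1 ≤ N + r
    · refine ⟨homogeneousComponent (N + r - (d - 1)) (u a), ?_, ?_⟩
      · have h2 := SS_of (k := k) (c := c)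
          (homogeneousComponent_isHomogeneous (N + r - (d - 1)) (u a))
        have h3 : ((N + r - (d - 1) : ℕ) : ℤ) = N + r - ((d : ℤ) - 1) := by omega
        rwa [h3] at h2
      · have h4 := hc_mul (u := u a) hGa (N + r - (d - 1))
        rwa [Nat.sub_add_cancel hle] at h4
    · refine ⟨0, by rw [map_zero]; exact Submodule.zero_mem _, ?_⟩
      rw [hc_mul0 hGa (N + r) (by omega), zero_mul]
  choose w hw1 hw2 using hcomp
  refine ⟨fun a => aeval c (w a), hw1, ?_⟩
  have h4 : X j ^ N * f = ∑ a, w a * pderiv a G := by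
    rw [← homogeneousComponent_eq_self hXf, ← hu, map_sum]
    exact Finset.sum_congr rfl fun a _ => by rw [hw2 a]
  have h5 := congrArg (aeval c) h4
  rw [map_mul, map_pow, aeval_X, map_sum] at h5
  rw [h5]
  exact Finset.sum_congr rfl fun a _ => by rw [map_mul]; rfl

theorem SS_sum {ι : Type} (s : Finset ι) {c : Fin 3 → L} {r : ℤ} {F : ι → L}
    (h : ∀ i ∈ s, F i ∈ SS (k := k) c r) : ∑ i ∈ s, F i ∈ SS (k := k) c r :=
  Submodule.sum_mem _ h

end

/-- (CSA) -/
theorem pf_CSA (hGPN : Pool.Agent.H84.ND.T_GPN) (hSNG : Pool.Agent.H84.ND.T_SNG)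
    (hDML : Pool.Agent.H84.ND.T_DML) (hGPT : Pool.Agent.H84.SM.T_GPT) :
    Pool.Agent.H84.ND.T_CSA := by
  intro k _ _ _ G d hG r N f hf0 hf hJ e α κ β hκ1 hκ2 hlt he hβ hω
  obtain ⟨L, _, _, c, hc⟩ := hGPT k G hG.irr
  have : CharZero L := charZero_of_injective_algebraMap (algebraMap k L).injective
  have hd1 : 1 ≤ d := le_trans (by norm_num) hG.two
  obtain ⟨_, _, _, _, hder⟩ := hGPN k G d hG
  have hg0 : ∀ l, gr G c l ≠ 0 := by
    intro l h
    exact (hder l).2.1 ((hc _).1 h)
  -- `f (c)` is not zero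
  have hfc : aeval c f ≠ 0 := by
    intro h
    obtain ⟨q, hq⟩ := (hc f).1 h
    have hq0 : q ≠ 0 := by
      rintro rfl
      exact hf0 (by rw [hq, mul_zero])
    have h1 : f.totalDegree = G.totalDegree + q.totalDegree := by
      rw [hq, totalDegree_mul_of_isDomain hG.irr.ne_zero hq0]
    rw [hf.totalDegree hf0, hG.hom.totalDegree hG.irr.ne_zero] at h1
    omega
  have hgSS : ∀ a, gr G c a ∈ SS (k := k) c ((d : ℤ) - 1) := by
    intro a
    have h1 := SS_of (k := k) (c := c) (hG.hom.pderiv (i := a))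
    have h2 : ((d - 1 : ℕ) : ℤ) = (d : ℤ) - 1 := by omega
    rwa [h2] at h1
  set b := eL c β with hb
  have hbh : b.IsHomogeneous 3 := eL_hom hβ
  -- the equation over the generic point
  obtain ⟨ω, hω1, hω2⟩ := hω 0
  have hfA : eL c (fA G) = ∑ i, C (gr G c i) * X i := by
    unfold fA dp
    rw [map_sum]
    refine Finset.sum_congr rfl fun i _ => ?_
    rw [map_mul, eL_ya]
    congr 1
    exact eL_xa c (pderiv i G)
  have hEq : C (gr G c 0) ^ 3 * b = (∑ i, C (gr G c i) * X i) ^ (κ + 1) * eL c ω := by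
    obtain ⟨q, hq⟩ := hω2
    have h1 := congrArg (eL c) hq
    rw [map_sub, map_mul, map_pow, map_mul, map_pow, map_mul, hfA] at h1
    have h2 : eL c (gA G) = 0 := by
      unfold gA
      rw [eL_xa, (hc G).2 dvd_rfl, C_0]
    have h3 : eL c (gr G xa 0) = C (gr G c 0) := eL_xa c (pderiv 0 G)
    rw [h2, h3, zero_mul, sub_eq_zero] at h1
    exact h1
  have hbo : b = (∑ i, C (gr G c i) * X i) ^ (κ + 1) *
      (C ((gr G c 0)⁻¹ ^ 3) * eL c ω) := by
    have h1 : (C ((gr G c 0)⁻¹ ^ 3) : MvPolynomial (Fin 3) L) * C (gr G c 0) ^ 3 = 1 := by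
      rw [← map_pow, ← map_mul, ← mul_pow, inv_mul_cancel₀ (hg0 0), one_pow, C_1]
    calc b = (C ((gr G c 0)⁻¹ ^ 3) * C (gr G c 0) ^ 3) * b := by rw [h1, one_mul]
      _ = C ((gr G c 0)⁻¹ ^ 3) * (C (gr G c 0) ^ 3 * b) := by ring
      _ = _ := by rw [hEq]; ring
  generalize (C ((gr G c 0)⁻¹ ^ 3) * eL c ω : MvPolynomial (Fin 3) L) = o at hbo
  have hbSS : ∀ p q s, D3 b p q s ∈ SS (k := k) c e := fun p q s => D3_mem hβ p q s
  have hhalf : ∀ (z : L) (w : ℤ) (q : ℚ), z ∈ SS (k := k) c w →
      algebraMap ℚ L q * z ∈ SS (k := k) c w := by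
    intro z w q hz
    have h1 : algebraMap ℚ L q = algebraMap k L (algebraMap ℚ k q) := by
      rw [eq_ratCast, eq_ratCast, map_ratCast]
    rw [h1, ← Algebra.smul_def]
    exact Submodule.smul_mem _ _ hz
  have hzero : ∀ p q s, D3 b p q s = 0 := by
    have hcase : κ = 1 ∨ κ = 2 := by omega
    rcases hcase with rfl | rfl
    · -- `κ = 1`
      have ho : ∀ j, eval (fun _ => 0) (pderiv j o) = 0 := by
        intro j
        set oo : Fin 3 → L := fun j => eval (fun _ => 0) (pderiv j o) with hoo
        set t : Fin 3 → Fin 3 → Fin 3 → L := fun p q s => algebraMap ℚ L (1 / 6) * D3 b p q s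
          with ht
        have h6 : algebraMap ℚ L (1 / 6) * 6 = 1 := by
          have h3 : (6 : L) = algebraMap ℚ L 6 := (map_ofNat (algebraMap ℚ L) 6).symm
          rw [h3, ← map_mul]
          norm_num
        have htt : ∀ a b' c', 3 * t a b' c' = gr G c a * gr G c b' * oo c' +
            gr G c a * gr G c c' * oo b' + gr G c b' * gr G c c' * oo a := by
          intro a b' c'
          rw [ht]
          simp only
          rw [hbo, D3_sq]
          linear_combination (gr G c a * gr G c b' * oo c' +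
            gr G c a * gr G c c' * oo b' + gr G c b' * gr G c c' * oo a) * h6
        have htS : ∀ p q s, t p q s ∈ SS (k := k) c e := fun p q s =>
          hhalf _ _ _ (hbSS p q s)
        have hgt : ∀ a p q s, gr G c a * t p q s ∈ SS (k := k) c ((d : ℤ) - 1 + e) :=
          fun a p q s => SS_mul (hgSS a) (htS p q s)
        have hggg : ∀ a b' c', gr G c a * gr G c b' * gr G c c' * oo j ∈
            SS (k := k) c ((d : ℤ) - 1 + e) := by
          intro a b' c'
          rw [hDML L (fun i => gr G c i) oo t htt a b' c' j]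
          refine Submodule.sub_mem _ (Submodule.add_mem _ (Submodule.add_mem _
            (hgt _ _ _ _) (hgt _ _ _ _)) (hgt _ _ _ _)) ?_
          have h1 := hhalf _ _ 2 (hgt j a b' c')
          rwa [map_ofNat] at h1
        have hfin : aeval c f ^ 3 * oo j = 0 := by
          refine hSNG k L G d c hG hc (aeval c f ^ 3 * oo j)
            (3 * (r : ℤ) - 3 * ((d : ℤ) - 1) + ((d : ℤ) - 1 + e)) (3 * N) ?_ ?_
          · rw [he]
            push_cast
            omega
          · intro l
            obtain ⟨p, hp1, hp2⟩ := jac_mem (k := k) hd1 hG.hom hf c l (hJ l)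
            have h1 : c l ^ (3 * N) * (aeval c f ^ 3 * oo j) =
                ∑ a, ∑ b', ∑ c', (p a * p b' * p c') *
                  (gr G c a * gr G c b' * gr G c c' * oo j) := by
              have h2 : c l ^ (3 * N) * (aeval c f ^ 3 * oo j) =
                  (c l ^ N * aeval c f) ^ 3 * oo j := by ring
              rw [h2, hp2]
              simp only [Fin.sum_univ_three]
              ring
            rw [h1]
            refine SS_sum _ fun a _ => SS_sum _ fun b' _ => SS_sum _ fun c' _ => ?_
            have h3 := SS_mul (SS_mul (SS_mul (hp1 a) (hp1 b')) (hp1 c')) (hggg a b' c')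
            have h4 : (N : ℤ) + r - ((d : ℤ) - 1) + (N + r - ((d : ℤ) - 1)) +
                (N + r - ((d : ℤ) - 1)) + ((d : ℤ) - 1 + e) =
                3 * (r : ℤ) - 3 * ((d : ℤ) - 1) + ((d : ℤ) - 1 + e) + ((3 * N : ℕ) : ℤ) := by
              push_cast
              ring
            rwa [h4] at h3
        exact (mul_eq_zero.1 hfin).resolve_left (pow_ne_zero 3 hfc)
      intro p q s
      rw [hbo, D3_sq, ho, ho, ho]
      ring
    · -- `κ = 2`
      have ho : eval (fun _ => 0) o = 0 := by
        have h6 : algebraMap ℚ L (1 / 6) * 6 = 1 := by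
          have h3 : (6 : L) = algebraMap ℚ L 6 := (map_ofNat (algebraMap ℚ L) 6).symm
          rw [h3, ← map_mul]
          norm_num
        have hggg : ∀ a b' c', gr G c a * gr G c b' * gr G c c' * eval (fun _ => 0) o ∈
            SS (k := k) c e := by
          intro a b' c'
          have h1 := hhalf _ _ (1 / 6) (hbSS a b' c')
          rw [hbo, D3_cu] at h1
          have h2 : algebraMap ℚ L (1 / 6) *
              (6 * (gr G c a * gr G c b' * gr G c c' * eval (fun _ => 0) o)) =
              gr G c a * gr G c b' * gr G c c' * eval (fun _ => 0) o := by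
            rw [← mul_assoc, h6, one_mul]
          rwa [h2] at h1
        have hfin : aeval c f ^ 3 * eval (fun _ => 0) o = 0 := by
          refine hSNG k L G d c hG hc (aeval c f ^ 3 * eval (fun _ => 0) o)
            (3 * (r : ℤ) - 3 * ((d : ℤ) - 1) + e) (3 * N) ?_ ?_
          · rw [he]
            push_cast
            omega
          · intro l
            obtain ⟨p, hp1, hp2⟩ := jac_mem (k := k) hd1 hG.hom hf c l (hJ l)
            have h1 : c l ^ (3 * N) * (aeval c f ^ 3 * eval (fun _ => 0) o) =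
                ∑ a, ∑ b', ∑ c', (p a * p b' * p c') *
                  (gr G c a * gr G c b' * gr G c c' * eval (fun _ => 0) o) := by
              have h2 : c l ^ (3 * N) * (aeval c f ^ 3 * eval (fun _ => 0) o) =
                  (c l ^ N * aeval c f) ^ 3 * eval (fun _ => 0) o := by ring
              rw [h2, hp2]
              simp only [Fin.sum_univ_three]
              ring
            rw [h1]
            refine SS_sum _ fun a _ => SS_sum _ fun b' _ => SS_sum _ fun c' _ => ?_
            have h3 := SS_mul (SS_mul (SS_mul (hp1 a) (hp1 b')) (hp1 c')) (hggg a b' c')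
            have h4 : (N : ℤ) + r - ((d : ℤ) - 1) + (N + r - ((d : ℤ) - 1)) +
                (N + r - ((d : ℤ) - 1)) + e =
                3 * (r : ℤ) - 3 * ((d : ℤ) - 1) + e + ((3 * N : ℕ) : ℤ) := by
              push_cast
              ring
            rwa [h4] at h3
        exact (mul_eq_zero.1 hfin).resolve_left (pow_ne_zero 3 hfc)
      intro p q s
      rw [hbo, D3_cu, ho]
      ring
  exact dvd_of_eL hc (zero_of_D3 hbh hzero)

end Pool.Agent.H29.ND
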