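import Pool.Agent.H29.ND.REC

/-!
# Part D of MP_57ddd5_pr: slopes of near geodesics, one side
-/

namespace Pool.Agent.H29.ND

open Pool.Agent.H99.NS Pool.Agent.H22.LPP Pool.Agent.H95.INS Pool.Agent.H76.ND

theorem lv_mono {i j : ℕ} (h : i ≤ j) : lv i ≤ lv j := by
  unfold lv
  have : (64 : ℤ) ^ (i - 1) ≤ 64 ^ (j - 1) := pow_le_pow_right₀ (by norm_num) (by omega)
  linarith

theorem pf_D2 (h_NOR : T_NOR) (h_D2S : T_D2S) (h_D2C : T_D2C) (h_REC : T_REC) : T_D2 := by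
  intro q hq0 hq1
  obtain ⟨C1, hC1, hS⟩ := h_D2S q hq0 hq1
  obtain ⟨C2, hC2, hCc⟩ := h_D2C q hq0 hq1
  refine ⟨10 * C1 + C2, by positivity, ?_⟩
  intro P K0 Xc a I k u g hK0 hXc hXca ha hak haI hG hu1 hu2 hgu hNO hD
  have hNO' : ∀ i, a ≤ i → i ≤ I → NO P (4 ^ a) (-lv (i + 1)) u g := by
    intro i hi1 hi2
    have e1 := lv_mono (show i + 1 ≤ I + 1 by omega)
    have e2 := lv_mono (show a ≤ i + 1 by omega)
    exact h_NOR P (4 ^ a) (-lv (I + 1)) (-lv (i + 1)) u u g (by omega) (by omega) le_rfl hNO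
  have h1 : ∀ i, a + 1 ≤ i → i ≤ I →
      (fun i => |((g (-lv i) - g u : ℤ) : ℝ)| / 16 ^ i) i ≤
        3 / 8 * (fun i => |((g (-lv i) - g u : ℤ) : ℝ)| / 16 ^ i) (i + 1) +
          C1 * K0 * (101 / 100) ^ ds k i := by
    intro i hi1 hi2
    exact hS P K0 Xc a I k i u g hK0 hXc hXca ha hak hi1 hi2 hG hu1 hu2 hgu
      (hNO' i (by omega) hi2) (hD i (by omega) hi2)
  have hK0' : 0 ≤ K0 := by linarith
  have h2 := h_REC (fun i => |((g (-lv i) - g u : ℤ) : ℝ)| / 16 ^ i) (C1 * K0) a I k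
    (by positivity) haI h1
  refine ⟨?_, ?_⟩
  · intro i hi1 hi2
    have h3 := h2 i hi1 hi2
    have h4 : 0 ≤ (101 / 100 : ℝ) ^ ds k i := by positivity
    have h5 : 2 * (C1 * K0) * (101 / 100 : ℝ) ^ ds k i ≤
        (10 * C1 + C2) * K0 * (101 / 100) ^ ds k i := by
      apply mul_le_mul_of_nonneg_right _ h4
      nlinarith [mul_nonneg hC1.le hK0', mul_nonneg hC2.le hK0']
    linarith
  · intro r hr1 hr2
    have h3 := hCc P K0 Xc a I k u r g hK0 hXc hXca ha hak haI hG hr1 hr2 hu2 hgu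
      (hNO' a le_rfl haI) (hD a le_rfl haI)
    have h4 := h2 (a + 1) le_rfl (by omega)
    rw [show I + 1 - (a + 1) = I - a by omega] at h4
    have h5 := mul_le_mul_of_nonneg_left (pow_ds_succ_le k a)
      (by positivity : 0 ≤ 2 * (C1 * K0))
    have h6 : 0 ≤ (101 / 100 : ℝ) ^ ds k a := by positivity
    have h7 : |((g r - g u : ℤ) : ℝ)| / 16 ^ a ≤
        3 * (3 / 8) ^ (I - a) * (|((g (-lv (I + 1)) - g u : ℤ) : ℝ)| / 16 ^ (I + 1)) +
        (10 * C1 + C2) * K0 * (101 / 100) ^ ds k a := by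
      have h8 : 0 ≤ C1 * K0 * (101 / 100 : ℝ) ^ ds k a := by positivity
      nlinarith
    rw [div_le_iff₀ (by positivity)] at h7
    linarith

end Pool.Agent.H29.ND
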