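import Pool.Agent.H29.ND.D2

/-!
# Part D of MP_57ddd5_pr: positions of near geodesics in the core
-/

namespace Pool.Agent.H29.ND

open Pool.Agent.H99.NS Pool.Agent.H22.LPP Pool.Agent.H95.INS Pool.Agent.H76.ND

/-- The real inequality of the last step. -/
theorem core_real (c N X p1 p2 p3 : ℝ) (hc : 0 ≤ c) (hN : 1 ≤ N) (hX : 0 ≤ X)
    (h : p1 ^ 2 / (31501 / 1000) + p2 ^ 2 / (1001 / 1000) + p3 ^ 2 / (1001 / 1000) ≤
      X ^ 2 / (63 / 2) + c * N * (1 + X + p1 + p2 + p3)) :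
    p3 ≤ 3 / 16 * X + 13 * (c + 1) * N := by
  set M := c * N with hM
  have hM0 : 0 ≤ M := by positivity
  have e1 : M * p1 ≤ p1 ^ 2 / (31501 / 1000) + 8 * M ^ 2 := by
    nlinarith only [sq_nonneg (p1 / (31501 / 1000) - M / 2), sq_nonneg M, sq_nonneg p1]
  have e2 : M * p2 ≤ p2 ^ 2 / (1001 / 1000) + M ^ 2 := by
    nlinarith only [sq_nonneg (p2 / (1001 / 1000) - M / 2), sq_nonneg M, sq_nonneg p2]
  have e3 : M * p3 ≤ 1 / 50 * p3 ^ 2 + 25 / 2 * M ^ 2 := by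
    nlinarith only [sq_nonneg (p3 / 5 - 5 / 2 * M * 1), sq_nonneg (p3 - 25 * M)]
  have e4 : M * X ≤ 1 / 500 * X ^ 2 + 125 * M ^ 2 := by
    nlinarith only [sq_nonneg (X - 250 * M)]
  have e5 : M ≤ c * N ^ 2 := by
    rw [hM]; nlinarith only [mul_nonneg hc (by linarith : (0:ℝ) ≤ N), hN, hM0]
  have e6 : M ^ 2 = c ^ 2 * N ^ 2 := by rw [hM]; ring
  have e7 : p3 ^ 2 ≤ (3 / 16 * X) ^ 2 + 169 * (c + 1) ^ 2 * N ^ 2 := by
    have hcN : 0 ≤ c * N ^ 2 := by positivity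
    have hc2 : 0 ≤ c ^ 2 * N ^ 2 := by positivity
    have hN2 : 0 ≤ N ^ 2 := by positivity
    nlinarith only [sq_nonneg X, sq_nonneg p3, h, hM0, e1, e2, e3, e4, e5]
  have e8 : 0 ≤ 13 * (c + 1) * N := by positivity
  have e9 : p3 ^ 2 ≤ (3 / 16 * X + 13 * (c + 1) * N) ^ 2 := by
    nlinarith only [mul_nonneg hX e8, h, hM0, e1, e2, e3, e4, e5, hX, e8]
  exact le_trans (le_abs_self _) (abs_le_of_sq_le_sq e9 (by positivity))

theorem piece {P : PS} {q K0 : ℝ} {k a : ℕ} {s t s' t' : ℤ} {g : ℤ → ℤ} {L' S : ℝ}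
    (hUL : UL P q K0 k a s t) (hs : s ≤ s') (hst : s' ≤ t') (ht : t' ≤ t)
    (hp : IsPath s' t' g) (hL : ((t' - s' : ℤ) : ℝ) + 64 ^ a / 1000 ≤ L' * 64 ^ a)
    (hS : max |(g s' : ℝ)| |(g t' : ℝ)| ≤ (8 + S) * 16 ^ k) (hak : a ≤ k)
    (hsg : 0 ≤ sg q) (hK : 0 ≤ K0) (hL0 : 0 < L') :
    P.W s' t' g ≤ mu q * ((t' - s' : ℤ) : ℝ)
      - sg q / 2 * ((|((g t' - g s' : ℤ) : ℝ)| / 16 ^ a) ^ 2 / L' * 4 ^ a)
      + K0 * (101 / 100) ^ ds k a * 4 ^ a * (9 + S) := by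
  have h1 := hUL s' t' g hs hst ht hp
  unfold sp al at h1
  rw [max_eq_left hak] at h1
  have h2 : ((0 : ℤ) : ℝ) ≤ ((t' - s' : ℤ) : ℝ) := by exact_mod_cast (by omega : (0:ℤ) ≤ t' - s')
  have h2' : (0 : ℝ) ≤ ((t' - s' : ℤ) : ℝ) := by simpa using h2
  have h3 : (0 : ℝ) < ((t' - s' : ℤ) : ℝ) + 64 ^ a / 1000 := by positivity
  have h4 : (16 : ℝ) ^ a * 16 ^ a = 64 ^ a * 4 ^ a := by rw [← mul_pow, ← mul_pow]; norm_num
  have h5 : (|((g t' - g s' : ℤ) : ℝ)| / 16 ^ a) ^ 2 / L' * 4 ^ a =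
      ((g t' - g s' : ℤ) : ℝ) ^ 2 / (L' * 64 ^ a) := by
    rw [div_pow, sq_abs, pow_two ((16 : ℝ) ^ a), h4]
    field_simp
  have h6 : ((g t' - g s' : ℤ) : ℝ) ^ 2 / (L' * 64 ^ a) ≤
      ((g t' - g s' : ℤ) : ℝ) ^ 2 / (((t' - s' : ℤ) : ℝ) + 64 ^ a / 1000) :=
    div_le_div_of_nonneg_left (sq_nonneg _) h3 hL
  have h7 : sg q / 2 * ((g t' - g s' : ℤ) : ℝ) ^ 2 / (((t' - s' : ℤ) : ℝ) + 64 ^ a / 1000) =
      sg q / 2 * (((g t' - g s' : ℤ) : ℝ) ^ 2 / (((t' - s' : ℤ) : ℝ) + 64 ^ a / 1000)) := by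
    rw [mul_div_assoc]
  have h8 : max |(g s' : ℝ)| |(g t' : ℝ)| / 16 ^ k ≤ 8 + S := by
    rw [div_le_iff₀ (by positivity)]; exact hS
  have h9 : K0 * (101 / 100 : ℝ) ^ ds k a * 4 ^ a * (1 + max |(g s' : ℝ)| |(g t' : ℝ)| / 16 ^ k) ≤
      K0 * (101 / 100) ^ ds k a * 4 ^ a * (9 + S) := by
    apply mul_le_mul_of_nonneg_left _ (by positivity)
    linarith
  have h10 := mul_le_mul_of_nonneg_left h6 (by linarith : 0 ≤ sg q / 2)
  rw [h5]
  rw [h7] at h1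
  linarith

theorem sg_pos {q : ℝ} (h0 : 0 < q) (h1 : q < 1) : 0 < sg q := by
  unfold sg
  have := Real.sqrt_pos.2 h0
  have h2 : 0 < 1 - q := by linarith
  positivity

theorem lv_succ_cast (a : ℕ) : ((lv (a + 1) : ℤ) : ℝ) = 32 * 64 ^ a := by
  unfold lv
  rw [Nat.add_sub_cancel]
  push_cast
  ring

theorem lv_cast {a : ℕ} (ha : 1 ≤ a) : ((lv a : ℤ) : ℝ) = 1 / 2 * 64 ^ a := by
  obtain ⟨b, rfl⟩ := Nat.exists_eq_add_of_le' ha
  rw [lv_succ_cast, pow_succ]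
  ring

theorem pf_D2C (h_LW : T_LW) : T_D2C := by
  intro q hq0 hq1
  obtain ⟨CL, hCL, hLW⟩ := h_LW q hq0 hq1
  have hsg := sg_pos hq0 hq1
  refine ⟨13 * (2 / sg q * (CL + 28) + 1), by positivity, ?_⟩
  intro P K0 Xc a I k u r g hK0 hXc hXca ha hak haI hG hr1 hru hu2 hgu hNO hX
  obtain ⟨hp, hW⟩ := hNO
  have hmono := lv_mono (show a ≤ a + 1 by omega)
  have hlvp : 0 ≤ lv a := by unfold lv; positivity
  have hs0 : -lv (a + 1) ≤ -lv a := by omega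
  -- paths
  have hp1 : IsPath (-lv (a + 1)) (-lv a) g := fun r h1 h2 => hp r h1 (by omega)
  have hp2 : IsPath (-lv a) r g := fun r h1 h2 => hp r (by omega) (by omega)
  have hp3 : IsPath r u g := fun r h1 h2 => hp r (by omega) (by omega)
  -- displacements
  set X := |((g (-lv (a + 1)) - g u : ℤ) : ℝ)| / 16 ^ a with hXd
  set p1 := |((g (-lv a) - g (-lv (a + 1)) : ℤ) : ℝ)| / 16 ^ a with hp1d
  set p2 := |((g r - g (-lv a) : ℤ) : ℝ)| / 16 ^ a with hp2d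
  set p3 := |((g u - g r : ℤ) : ℝ)| / 16 ^ a with hp3d
  have h16 : (0 : ℝ) < 16 ^ a := by positivity
  have h16k : (16 : ℝ) ^ a ≤ 16 ^ k := pow_le_pow_right₀ (by norm_num) hak
  have e1 : |((g (-lv a) - g (-lv (a + 1)) : ℤ) : ℝ)| = p1 * 16 ^ a := by
    rw [hp1d]; field_simp
  have e2 : |((g r - g (-lv a) : ℤ) : ℝ)| = p2 * 16 ^ a := by
    rw [hp2d]; field_simp
  have e3 : |((g u - g r : ℤ) : ℝ)| = p3 * 16 ^ a := by
    rw [hp3d]; field_simp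
  have hX0 : 0 ≤ X := by positivity
  have hp10 : 0 ≤ p1 := by positivity
  have hp20 : 0 ≤ p2 := by positivity
  have hp30 : 0 ≤ p3 := by positivity
  push_cast at e1 e2 e3
  have f3 : |(g r : ℝ)| ≤ 8 * 16 ^ k + p3 * 16 ^ a := by
    have := abs_sub_abs_le_abs_sub (g r : ℝ) (g u)
    rw [abs_sub_comm] at this
    linarith
  have f2 : |(g (-lv a) : ℝ)| ≤ 8 * 16 ^ k + p3 * 16 ^ a + p2 * 16 ^ a := by
    have := abs_sub_abs_le_abs_sub (g (-lv a) : ℝ) (g r)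
    rw [abs_sub_comm] at this
    linarith
  have f1 : |(g (-lv (a + 1)) : ℝ)| ≤ 8 * 16 ^ k + p3 * 16 ^ a + p2 * 16 ^ a + p1 * 16 ^ a := by
    have := abs_sub_abs_le_abs_sub (g (-lv (a + 1)) : ℝ) (g (-lv a))
    rw [abs_sub_comm] at this
    linarith
  have g1 := mul_le_mul_of_nonneg_left h16k hp10
  have g2 := mul_le_mul_of_nonneg_left h16k hp20
  have g3 := mul_le_mul_of_nonneg_left h16k hp30
  have g1' : 0 ≤ p1 * 16 ^ k := by positivity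
  have g2' : 0 ≤ p2 * 16 ^ k := by positivity
  have g3' : 0 ≤ p3 * 16 ^ k := by positivity
  have g1a : 0 ≤ p1 * 16 ^ a := by positivity
  have g2a : 0 ≤ p2 * 16 ^ a := by positivity
  -- the three pieces
  have c0 := lv_succ_cast a
  have c1 := lv_cast ha
  have w1 := piece (L' := 31501 / 1000) (S := p1 + p2 + p3) (hG.u a le_rfl haI) le_rfl hs0 le_rfl
    hp1 (by push_cast; rw [c0, c1]; linarith) (max_le (by linarith) (by linarith)) hak hsg.le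
    (by linarith) (by norm_num)
  have w2 := piece (L' := 1001 / 1000) (S := p1 + p2 + p3) hG.uc le_rfl hr1 (by omega)
    hp2 (by
      have : (r : ℝ) ≤ lv a := by exact_mod_cast (by omega : r ≤ lv a)
      push_cast; rw [c1] at *; linarith) (max_le (by linarith) (by linarith)) hak hsg.le
    (by linarith) (by norm_num)
  have w3 := piece (L' := 1001 / 1000) (S := p1 + p2 + p3) hG.uc hr1 hru hu2
    hp3 (by
      have : (u : ℝ) ≤ lv a := by exact_mod_cast hu2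
      have : -(lv a : ℝ) ≤ r := by exact_mod_cast hr1
      push_cast; rw [c1] at *; linarith) (max_le (by linarith) (by linarith)) hak hsg.le
    (by linarith) (by norm_num)
  have hadd1 := P.add (-lv (a + 1)) (-lv a) u g hs0 (by omega)
  have hadd2 := P.add (-lv a) r u g hr1 hru
  -- the lower bound
  have hreach : Reach (-lv (a + 1), g (-lv (a + 1))) (u, g u) := by
    have := path_lip hp le_rfl (by omega : -lv (a + 1) ≤ u) le_rfl
    exact ⟨this.1, this.2⟩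
  have hl := hLW P K0 Xc a k a (u, g u) (g (-lv (a + 1))) hK0 hXc hXca ha hak le_rfl
    (by simp only; omega) (by simp only; omega) hgu hX hreach hG.il
    (fun m h1 h2 => hG.l m h1 (by omega))
  simp only at hl
  have h4 : (16 : ℝ) ^ a * 16 ^ a = 64 ^ a * 4 ^ a := by rw [← mul_pow, ← mul_pow]; norm_num
  have h5 : ((g (-lv (a + 1)) - g u : ℤ) : ℝ) ^ 2 = X ^ 2 * (64 ^ a * 4 ^ a) := by
    rw [hXd, div_pow, sq_abs, ← h4]; field_simp
  have h6 : sg q / 2 * ((g (-lv (a + 1)) - g u : ℤ) : ℝ) ^ 2 / ((lv (a + 1) - lv a : ℤ) : ℝ) =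
      sg q / 2 * (X ^ 2 / (63 / 2) * 4 ^ a) := by
    have : ((lv (a + 1) - lv a : ℤ) : ℝ) = 63 / 2 * 64 ^ a := by
      push_cast; rw [c0, c1]; ring
    rw [this, h5]; field_simp
  rw [h6, ← hXd] at hl
  rw [← hp1d] at w1
  rw [← hp2d] at w2
  rw [← hp3d] at w3
  set Th := (101 / 100 : ℝ) ^ ds k a with hTh
  have hTh1 : 1 ≤ Th := one_le_pow₀ (by norm_num)
  have hN1 : 1 ≤ K0 * Th := by nlinarith only [hK0, hTh1, hq0, hq1]
  have h4a : (0 : ℝ) < 4 ^ a := by positivity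
  -- combine
  have hcomb : sg q / 2 * (4 : ℝ) ^ a * (p1 ^ 2 / (31501 / 1000) + p2 ^ 2 / (1001 / 1000) +
      p3 ^ 2 / (1001 / 1000)) ≤ sg q / 2 * 4 ^ a * (X ^ 2 / (63 / 2)) +
        4 ^ a * ((CL + 28) * (K0 * Th) * (1 + X + p1 + p2 + p3)) := by
    have k1 : mu q * ((-lv a - -lv (a + 1) : ℤ) : ℝ) + mu q * ((r - -lv a : ℤ) : ℝ) +
        mu q * ((u - r : ℤ) : ℝ) = mu q * ((u + lv (a + 1) : ℤ) : ℝ) := by push_cast; ring
    have k2 : (4 : ℝ) ^ a ≤ 4 ^ a * (K0 * Th) := by nlinarith only [hq0, hq1, hN1, h4a]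
    have k3 : 0 ≤ (4 : ℝ) ^ a * (K0 * Th) * X := by positivity
    have k4 : 0 ≤ (4 : ℝ) ^ a * (K0 * Th) * p1 := by positivity
    have k5 : 0 ≤ (4 : ℝ) ^ a * (K0 * Th) * p2 := by positivity
    have k6 : 0 ≤ (4 : ℝ) ^ a * (K0 * Th) * p3 := by positivity
    have k7 : 0 ≤ CL * ((4 : ℝ) ^ a * (K0 * Th) * p1) := by positivity
    have k8 : 0 ≤ CL * ((4 : ℝ) ^ a * (K0 * Th) * p2) := by positivity
    have k9 : 0 ≤ CL * ((4 : ℝ) ^ a * (K0 * Th) * p3) := by positivity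
    nlinarith only [hW, hadd1, hadd2, w1, w2, w3, hl, k1, k2, k3, k4, k5, k6, k7, k8, k9]
  have hdiv : p1 ^ 2 / (31501 / 1000) + p2 ^ 2 / (1001 / 1000) + p3 ^ 2 / (1001 / 1000) ≤
      X ^ 2 / (63 / 2) + 2 / sg q * (CL + 28) * (K0 * Th) * (1 + X + p1 + p2 + p3) := by
    have k1 : 0 < sg q / 2 * (4 : ℝ) ^ a := by positivity
    have k2 : 4 ^ a * ((CL + 28) * (K0 * Th) * (1 + X + p1 + p2 + p3)) =
        sg q / 2 * 4 ^ a * (2 / sg q * (CL + 28) * (K0 * Th) * (1 + X + p1 + p2 + p3)) := by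
      field_simp
    rw [k2, ← mul_add] at hcomb
    exact le_of_mul_le_mul_left hcomb k1
  have hfin := core_real (2 / sg q * (CL + 28)) (K0 * Th) X p1 p2 p3 (by positivity) hN1 hX0 hdiv
  have k1 : |((g r - g u : ℤ) : ℝ)| / 16 ^ a = p3 := by
    rw [hp3d]; push_cast; rw [abs_sub_comm]
  have k2 : 3 * (|((g (-lv (a + 1)) - g u : ℤ) : ℝ)| / 16 ^ (a + 1)) = 3 / 16 * X := by
    rw [hXd, pow_succ]; field_simp
  rw [k1, k2]
  linarith only [hfin]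

end Pool.Agent.H29.ND
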