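import Pool.Agent.H84.ND.Targets2

/-!
# DML: coefficients of the products of powers of a linear form
-/

set_option autoImplicit false

namespace Pool.Agent.H29.ND

open MvPolynomial SC Pool.Agent.H27.LV Pool.Agent.H84.SM Pool.Agent.H84.ND

/-- (DML) -/
theorem pf_DML : Pool.Agent.H84.ND.T_DML := by
  intro R _ _ g o t h a b c j
  have h1 : (3 : R) * (g a * g b * g c * o j) =
      3 * (g a * t b c j + g b * t a c j + g c * t a b j - 2 * (g j * t a b c)) := by
    linear_combination -(g a) * h b c j - g b * h a c j - g c * h a b j + 2 * g j * h a b c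
  have h2 : algebraMap ℚ R (1 / 3) * 3 = 1 := by
    have h3 : (3 : R) = algebraMap ℚ R 3 := (map_ofNat (algebraMap ℚ R) 3).symm
    rw [h3, ← map_mul]
    norm_num
  calc g a * g b * g c * o j = (algebraMap ℚ R (1 / 3) * 3) * (g a * g b * g c * o j) := by
        rw [h2, one_mul]
    _ = algebraMap ℚ R (1 / 3) * (3 * (g a * g b * g c * o j)) := by ring
    _ = algebraMap ℚ R (1 / 3) *
        (3 * (g a * t b c j + g b * t a c j + g c * t a b j - 2 * (g j * t a b c))) := by rw [h1]
    _ = (algebraMap ℚ R (1 / 3) * 3) *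
        (g a * t b c j + g b * t a c j + g c * t a b j - 2 * (g j * t a b c)) := by ring
    _ = _ := by rw [h2, one_mul]

end Pool.Agent.H29.ND
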