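import Pool.Agent.H29.ND.PFL
import Pool.Agent.H97.NF.All

/-!
# Part D of MP_57ddd5_pr: the bound for one tile
-/

open MeasureTheory ProbabilityTheory Filter Topology
open scoped ENNReal

namespace Pool.Agent.H29.ND

open Pool.Agent.H99.NS Pool.Agent.H22.LPP Pool.Agent.H95.INS Pool.Agent.H76.ND
open Pool.Agent.H97.NF (PEnv eA eB PN glue ff Infx domN tile kbox rk quad a_VVF glue_of_notMem)
open Pool.Agent.H95.ND (Sml I_N PK JCs)

/-! ### Real inequalities -/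

theorem half_absorb (c : ℝ) (hc : 0 < c) : ∃ N0 : ℕ, ∀ N : ℕ, N0 ≤ N →
    Real.exp (-((N : ℝ) ^ c / 2)) ≤ Real.exp (-(N : ℝ) ^ (c / 2)) := by
  have hc2 : 0 < c / 2 := by positivity
  have t : ∀ᶠ x : ℝ in atTop, 2 ≤ x ^ (c / 2) ∧ 1 ≤ x :=
    ((tendsto_rpow_atTop hc2).eventually_ge_atTop _).and (eventually_ge_atTop 1)
  obtain ⟨N0, hN0⟩ := eventually_atTop.1
    (tendsto_natCast_atTop_atTop.eventually (f := fun n : ℕ => (n : ℝ)) t)
  refine ⟨N0, fun N hN => ?_⟩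
  obtain ⟨h1, h2⟩ := hN0 N hN
  have hx0 : (0 : ℝ) < N := by linarith
  have h5 : (N : ℝ) ^ c = (N : ℝ) ^ (c / 2) * (N : ℝ) ^ (c / 2) := by
    rw [← Real.rpow_add hx0]; congr 1; ring
  apply Real.exp_le_exp.2
  rw [h5]
  nlinarith

theorem exp_rpow_le {x c s s1 : ℝ} (hx : 0 ≤ x) (hc : 0 ≤ c) (hs : 0 < s) (h : s ≤ s1) :
    Real.exp (-(c * x ^ s1)) ≤ Real.exp c * Real.exp (-(c * x ^ s)) := by
  rw [← Real.exp_add]
  apply Real.exp_le_exp.2
  rcases le_or_gt 1 x with h1 | h1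
  · have := mul_le_mul_of_nonneg_left (Real.rpow_le_rpow_of_exponent_le h1 h) hc
    linarith
  · have h2 := mul_le_mul_of_nonneg_left (Real.rpow_le_one hx h1.le hs.le) hc
    have h3 := mul_nonneg hc (Real.rpow_nonneg hx s1)
    linarith

theorem sqrt_add_le' {A B : ℝ} (hA : 0 ≤ A) (hB : 0 ≤ B) : √(A + B) ≤ √A + √B := by
  rw [Real.sqrt_le_left (by positivity)]
  have h1 := Real.sq_sqrt hA
  have h2 := Real.sq_sqrt hB
  have h3 := mul_nonneg (Real.sqrt_nonneg A) (Real.sqrt_nonneg B)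
  nlinarith

theorem sqrt_mul_exp {C y : ℝ} (hC : 0 ≤ C) :
    √(C * Real.exp (-y)) = √C * Real.exp (-(y / 2)) := by
  rw [Real.sqrt_mul hC]
  congr 1
  rw [show Real.exp (-y) = Real.exp (-(y / 2)) ^ 2 by
    rw [← Real.exp_nat_mul]; congr 1; push_cast; ring]
  exact Real.sqrt_sq (Real.exp_pos _).le

/-! ### The product of the differences -/

/-- The product of the two differences. -/
noncomputable def Wd (n : ℕ) (Q : Set Site) (F : PEnv × PEnv) : ℝ :=
  |ff n (X4 Q 0 F) - ff n (X4 Q 1 F)| * |ff n (X4 Q 2 F) - ff n (X4 Q 3 F)|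

theorem Wd_nonneg (n : ℕ) (Q : Set Site) (F : PEnv × PEnv) : 0 ≤ Wd n Q F := by
  unfold Wd; positivity

theorem measurable_X4 (Q : Set Site) (l : Fin 4) : Measurable (X4 Q l) :=
  (mp_X4 (1 / 2) (fun _ => 0) Q l).measurable

theorem measurable_Wd (n : ℕ) (Q : Set Site) : Measurable (Wd n Q) := by
  have h : ∀ l, Measurable fun F => ff n (X4 Q l F) := fun l =>
    (measurable_T (0, 0) (2 * n, 0)).comp (measurable_X4 Q l)
  unfold Wd
  exact ((h 0).sub (h 1)).abs.mul ((h 2).sub (h 3)).abs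

theorem quad_eq (q : ℝ) (n : ℕ) (ρ : Site → ℝ) (Q : Set Site) :
    quad q n ρ Q = ∫ F, Wd n Q F ∂((PN q ρ).prod (PN q ρ)) := by
  unfold quad Wd
  simp [X4]

theorem quad_le {q : ℝ} {n : ℕ} {ρ : Site → ℝ} {Q : Set Site} {B : ℝ} (hB : 0 ≤ B)
    (h : ∫⁻ F, ENNReal.ofReal (Wd n Q F) ∂((PN q ρ).prod (PN q ρ)) ≤ ENNReal.ofReal B) :
    quad q n ρ Q ≤ B := by
  rw [quad_eq, integral_eq_lintegral_of_nonneg_ae (ae_of_all _ (Wd_nonneg n Q))
    (measurable_Wd n Q).aestronglyMeasurable]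
  exact ENNReal.toReal_le_of_le_ofReal hB h

theorem Wd_ne {n : ℕ} {Q : Set Site} {F : PEnv × PEnv} (h : Wd n Q F ≠ 0) :
    ff n (X4 Q 0 F) ≠ ff n (X4 Q 1 F) ∧ ff n (X4 Q 2 F) ≠ ff n (X4 Q 3 F) := by
  unfold Wd at h
  constructor
  · intro h1; apply h; rw [h1]; simp
  · intro h1; apply h; rw [h1]; simp

theorem Wd_touch (h_TC0 : T_TC0) {n a : ℕ} {z : ℤ × ℤ} {F : PEnv × PEnv}
    (h : Wd n (tile a z) F ≠ 0) : ∃ l, Tch a n z (X4 (tile a z) l F) := by
  have h1 := (Wd_ne h).1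
  have h2 : ∀ x ∉ tile a z, X4 (tile a z) 0 F x = X4 (tile a z) 1 F x := by
    intro x hx
    simp [X4, eA, glue_of_notMem _ _ hx]
  rcases (h_TC0 a n z _ _ h2).2 h1 with h3 | h3
  · exact ⟨0, h3⟩
  · exact ⟨1, h3⟩

/-- Splitting of an integral over arbitrary sets. -/
theorem lint_split {α : Type*} [MeasurableSpace α] (μ : Measure α) (f : α → ℝ≥0∞) (S : Set α)
    (K : Finset ℕ) (G : ℕ → Set α) (c : ℕ → ℝ≥0∞)
    (h : ∀ x, f x = 0 ∨ x ∈ S ∨ ∃ k ∈ K, x ∈ G k ∧ f x ≤ c k) :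
    ∫⁻ x, f x ∂μ ≤ ∫⁻ x in S, f x ∂μ + ∑ k ∈ K, c k * μ (G k) := by
  have hu : (Set.univ : Set α) ⊆ {x | f x = 0} ∪ (S ∪ ⋃ k : K, {x | x ∈ G k ∧ f x ≤ c k}) := by
    intro x _
    rcases h x with h1 | h1 | ⟨k, hk, h1⟩
    · exact Or.inl h1
    · exact Or.inr (Or.inl h1)
    · refine Or.inr (Or.inr ?_)
      rw [Set.mem_iUnion]
      exact ⟨⟨k, hk⟩, h1⟩
  have h0 : ∫⁻ x in {x | f x = 0}, f x ∂μ = 0 := by
    refine le_antisymm ?_ bot_le
    refine (setLIntegral_mono (g := fun _ => 0) measurable_const (fun x hx => ?_)).trans ?_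
    · exact le_of_eq hx
    · simp
  have h2 : ∫⁻ x in ⋃ k : K, {x | x ∈ G k ∧ f x ≤ c k}, f x ∂μ ≤ ∑ k ∈ K, c k * μ (G k) := by
    refine (lintegral_iUnion_le _ _).trans ?_
    rw [tsum_fintype, ← Finset.sum_coe_sort K]
    refine Finset.sum_le_sum fun k _ => ?_
    refine (setLIntegral_mono (g := fun _ => c k) measurable_const (fun x hx => hx.2)).trans ?_
    rw [setLIntegral_const]
    gcongr
    exact fun x hx => hx.1
  calc ∫⁻ x, f x ∂μ = ∫⁻ x in Set.univ, f x ∂μ := by rw [Measure.restrict_univ]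
    _ ≤ ∫⁻ x in {x | f x = 0} ∪ (S ∪ ⋃ k : K, {x | x ∈ G k ∧ f x ≤ c k}), f x ∂μ :=
        lintegral_mono' (Measure.restrict_mono_set μ hu) le_rfl
    _ ≤ ∫⁻ x in {x | f x = 0}, f x ∂μ + (∫⁻ x in S, f x ∂μ +
          ∫⁻ x in ⋃ k : K, {x | x ∈ G k ∧ f x ≤ c k}, f x ∂μ) :=
        (lintegral_union_le _ _ _).trans (add_le_add le_rfl (lintegral_union_le _ _ _))
    _ ≤ ∫⁻ x in S, f x ∂μ + ∑ k ∈ K, c k * μ (G k) := by
        rw [h0, zero_add]
        exact add_le_add le_rfl h2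

theorem pow_le_two_mul {b n : ℕ} (hn : 1 ≤ n) (h : (64 : ℕ) ^ b ≤ 2 * n) :
    (16 : ℝ) ^ b ≤ 2 * (n : ℝ) ^ 40 := by
  have h1 : (16 : ℝ) ^ b ≤ 64 ^ b := pow_le_pow_left₀ (by norm_num) (by norm_num) b
  have h2 : (64 : ℝ) ^ b ≤ 2 * n := by exact_mod_cast h
  have h3 : (1 : ℝ) ≤ n := by exact_mod_cast hn
  have h4 : (n : ℝ) ≤ (n : ℝ) ^ 40 := le_self_pow₀ h3 (by norm_num)
  linarith

theorem le_of_pow {k n : ℕ} (hk : 1 ≤ k) (h : (64 : ℕ) ^ k ≤ 2 * n) : k ≤ n := by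
  have h1 : k < 32 ^ k := Nat.lt_pow_self (by norm_num)
  have h2 : (2 : ℕ) * 32 ^ k ≤ 64 ^ k := by
    have e : (64 : ℕ) ^ k = 2 ^ k * 32 ^ k := by rw [← mul_pow]; norm_num
    have h3 : 2 ^ 1 ≤ 2 ^ k := Nat.pow_le_pow_right (by norm_num) hk
    rw [e]
    exact Nat.mul_le_mul_right _ (by simpa using h3)
  omega

open Classical in
/-- The good part: one scale. -/
theorem good_scale (h_KG3 : T_KG3) (h_KG4 : T_KG4) {q M κ c₁ : ℝ} {c : Cst} {p₀ : ℝ≥0∞}
    {k₀ : ℕ} {Cg δ r : ℝ} {Xc : ℤ} {a I n k : ℕ} {z : ℤ × ℤ} {ρ : Site → ℝ} (hq0 : 0 < q)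
    (hq1 : q < 1) (hOK : CstOK q M Cg c κ c₁ p₀ k₀) (hPK : PK q δ Cg c k₀ p₀)
    (h16A : 16 * c.A ≤ Xc) (hXc : 4 * Xc ≤ 4 ^ a) (hSml : Sml Xc a) (hk₀a : k₀ ≤ a)
    (h1a : 1 ≤ a) (hak : a ≤ k) (hkI : k ≤ I)
    (hz1 : lv (I + 1) ≤ 64 ^ a * z.1) (hz2 : 64 ^ a * z.1 + lv (I + 1) ≤ 2 * n)
    (hr : rk κ a ≤ r) (hρ : ∀ x, r ≤ ρ x ∧ ρ x ≤ 1) (K3 : ℝ) (hK3 : 0 ≤ K3) :
    ENNReal.ofReal (K3 * 16 ^ k) * ((PN q ρ).prod (PN q ρ)) {F | GK c Xc a I n k z F} ≤
      ENNReal.ofReal (K3 * 4 * (2 / (q * (1 - q))) / c₁ *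
        (Real.exp (-(M * ((k : ℝ) - a))) * (1 / 4) ^ k *
          ∑ x ∈ (domN n).filter (fun x => x ∈ kbox c.A a z k), Infx q n (fun _ => rk κ k) x)) := by
  classical
  have h4k : (4 : ℤ) ^ a ≤ 4 ^ k := pow_le_pow_right₀ (by norm_num) hak
  have hA200 := hPK.A1
  have hXk : Xc + c.A ≤ 32 * 4 ^ k := by linarith
  have hA4 : 4 ≤ c.A := by linarith
  have hlv : lv (k + 1) ≤ lv (I + 1) := by
    rw [lv1, lv1]
    have : (64 : ℤ) ^ k ≤ 64 ^ I := pow_le_pow_right₀ (by norm_num) hkI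
    linarith
  have hrk : rk κ k ≤ rk κ a := by
    unfold rk
    have h1 : ((1 : ℝ) / 4) ^ k ≤ (1 / 4) ^ a :=
      pow_le_pow_of_le_one (by norm_num) (by norm_num) hak
    exact mul_le_mul_of_nonneg_left h1 hOK.κ0.le
  have h3 := h_KG3 q M c Xc k₀ a I n k z ρ hq0 hq1 hPK.hq hOK.jc h16A hSml hk₀a h1a hak hkI hA4
  have h4 := h_KG4 q κ c₁ c Xc a n k z ρ hq0 hq1 hPK.hq hOK.κ0 hOK.κ1 h1a hak hA4
    (hPK.ok Xc k (hk₀a.trans hak) h16A hXk) (hOK.ov Xc k (hk₀a.trans hak) h16A hXk)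
    (hlv.trans hz1) (by linarith) (fun x => ⟨(hrk.trans hr).trans (hρ x).1, (hρ x).2⟩)
  set S := ∑ x ∈ (domN n).filter (fun x => x ∈ kbox c.A a z k), Infx q n (fun _ => rk κ k) x
    with hS
  set E := {E | GdA c Xc a n k z (eA E) ∧ GdA c Xc a n k z (eB E)} with hE
  have hc1 := hOK.c1
  have h5 : (PN q ρ).real E ≤ 2 / (q * (1 - q)) * S / (c₁ * 64 ^ k) := by
    rw [le_div_iff₀ (by positivity)]
    linarith
  have h6 : (PN q ρ) E ≤ ENNReal.ofReal (2 / (q * (1 - q)) * S / (c₁ * 64 ^ k)) := by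
    rw [← ofReal_measureReal (measure_ne_top (PN q ρ) E)]
    exact ENNReal.ofReal_le_ofReal h5
  calc ENNReal.ofReal (K3 * 16 ^ k) * ((PN q ρ).prod (PN q ρ)) {F | GK c Xc a I n k z F} ≤
        ENNReal.ofReal (K3 * 16 ^ k) * (ENNReal.ofReal (4 * Real.exp (-(M * ((k : ℝ) - a)))) *
          ENNReal.ofReal (2 / (q * (1 - q)) * S / (c₁ * 64 ^ k))) :=
        mul_le_mul_right (h3.trans (mul_le_mul_right h6 _)) _
    _ = ENNReal.ofReal (K3 * 16 ^ k * (4 * Real.exp (-(M * ((k : ℝ) - a))) *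
          (2 / (q * (1 - q)) * S / (c₁ * 64 ^ k)))) := by
        rw [← ENNReal.ofReal_mul (by positivity), ← ENNReal.ofReal_mul (by positivity)]
    _ = _ := by
        congr 1
        have e : (64 : ℝ) ^ k = 16 ^ k * 4 ^ k := by rw [← mul_pow]; norm_num
        have e2 : ((1 : ℝ) / 4) ^ k = 1 / 4 ^ k := by rw [one_div, one_div, inv_pow]
        rw [e, e2]
        have h16 : (16 : ℝ) ^ k ≠ 0 := by positivity
        have h4' : (4 : ℝ) ^ k ≠ 0 := by positivity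
        have hq' : q * (1 - q) ≠ 0 := by
          have : 0 < 1 - q := by linarith
          positivity
        field_simp

theorem pf_KTL (h_BZ : T_BZ) (h_TC0 : T_TC0) (h_KG2 : T_KG2) (h_KG3 : T_KG3) (h_KG4 : T_KG4)
    (h_PFL : T_PFL) (h_TCH : T_TCH) (h_CSW : T_CSW) (h_CHX : T_CHX) : T_KTL := by
  classical
  intro q c0 hq0 hq1 hc0 hc01 hLT hIN
  obtain ⟨Cg0, hCg0, hKG2⟩ := h_KG2 q hq0 hq1
  refine ⟨max 1 Cg0, le_max_left _ _, ?_⟩
  intro M κ c₁ p₀ k₀ c hM hOK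
  obtain ⟨δ, hPK⟩ := hOK.pk
  obtain ⟨Ct, ct, st, nt, hCt, hct, hst, hTCH⟩ := h_TCH q c0 hq0 hq1 hc0 hc01 hLT hIN
  obtain ⟨Cs, ns, hCs, hCSW⟩ := h_CSW q c0 hq0 hq1 hc0 hc01 hLT hIN
  obtain ⟨nx, hCHX⟩ := h_CHX c0 (max (16 * (c.A : ℝ)) k₀) hc0 hc01
  obtain ⟨Cq, cq, sq, nq, hCq, hcq, hsq, hPFL⟩ := h_PFL q c0 M (max 1 Cg0) κ c₁ p₀ k₀ c hq0 hq1
    hc0 hc01 (by linarith) hLT hIN hOK
  obtain ⟨nh1, hh1⟩ := half_absorb ct hct
  obtain ⟨nh2, hh2⟩ := half_absorb cq hcq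
  have hq' : 0 < 1 - q := by linarith
  have hc1 := hOK.c1
  set K3 : ℝ := (2 * c.K * (1 + c.B) + sg q * c.B ^ 2) ^ 2 with hK3
  have hK30 : 0 ≤ K3 := sq_nonneg _
  set C1 : ℝ := K3 * 4 * (2 / (q * (1 - q))) / c₁ with hC1
  have hC10 : 0 ≤ C1 := by positivity
  set s : ℝ := min st sq with hs
  have hs0 : 0 < s := lt_min hst hsq
  set c' : ℝ := min (ct / 2) (cq / 2) with hc'
  have hc'0 : 0 < c' := lt_min (by positivity) (by positivity)
  set Sq : ℝ := √(4 * Ct) + √Cq with hSq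
  have hSq0 : 0 ≤ Sq := by positivity
  set Ee : ℝ := Real.exp 13 * Real.exp c' with hEe
  have hEe1 : 1 ≤ Ee := by
    have h1 : 1 ≤ Real.exp 13 := Real.one_le_exp (by norm_num)
    have h2 : 1 ≤ Real.exp c' := Real.one_le_exp hc'0.le
    rw [hEe]; nlinarith only [h1, h2, hq0, hq1]
  set CF : ℝ := C1 + 1 + Cs * Sq * (Ee + 2) with hCF
  have hCF0 : 0 < CF := by positivity
  refine ⟨CF, c', s, max 1 (max nt (max ns (max nx (max nq (max nh1 nh2))))), hCF0, hc'0, hs0, ?_⟩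
  intro n a z r ρ hn hr0 hr1 h1a hca h64a hrk hρ hdom
  simp only [max_le_iff] at hn
  obtain ⟨n1, n2, n3, n4, n5, n6, n7⟩ := hn
  set N : ℕ := 2 * n with hN
  have hN1 : 1 ≤ N := by omega
  have hNr : (1 : ℝ) ≤ N := by exact_mod_cast hN1
  set b := bz n a z with hb
  obtain ⟨b1, b2, b3, b4⟩ := h_BZ n a z h1a n1 h64a
  rw [← hb] at b1 b2 b3 b4
  set Q := tile a z with hQ
  set μ := (PN q ρ).prod (PN q ρ) with hμ
  -- the sum
  set Tm : ℕ → ℝ := fun k => Real.exp (-(M * ((k : ℝ) - a))) * (1 / 4) ^ k *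
    ∑ x ∈ (domN n).filter (fun x => x ∈ kbox c.A a z k), Infx q n (fun _ => rk κ k) x with hTm
  have hInf : ∀ (ρ : Site → ℝ) (x : Site), 0 ≤ Infx q n ρ x :=
    (a_VVF q hq0.le hq1 n).2.2.2.2.2.2
  have hTm0 : ∀ k, 0 ≤ Tm k := fun k =>
    mul_nonneg (by positivity) (Finset.sum_nonneg fun x _ => hInf _ x)
  set SM : ℝ := ∑ k ∈ (Finset.Icc a n).filter (fun k => 64 ^ k ≤ 2 * n), Tm k with hSM
  have hSM0 : 0 ≤ SM := Finset.sum_nonneg fun k _ => hTm0 k
  set xb : ℝ := |(z.2 : ℝ)| * 16 ^ a / 16 ^ b with hxb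
  have hxb0 : 0 ≤ xb := by positivity
  -- it suffices to bound the integral of the bad part
  have h16b : (0 : ℝ) < 16 ^ b := by positivity
  have h16n := pow_le_two_mul n1 b3
  set P1 : ℝ := Real.exp (-(11 * ((b : ℝ) - a))) * Real.exp (-(c' * xb ^ s)) with hP1
  set P2 : ℝ := Real.exp (-(N : ℝ) ^ c') with hP2
  have hP10 : 0 < P1 := by positivity
  have hP20 : 0 < P2 := Real.exp_pos _
  have hfinal : ∀ (S : Set (PEnv × PEnv)) (K : Finset ℕ),
      K ⊆ (Finset.Icc a n).filter (fun k => 64 ^ k ≤ 2 * n) →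
      ∫⁻ F, ENNReal.ofReal (Wd n Q F) ∂μ ≤ ∫⁻ F in S, ENNReal.ofReal (Wd n Q F) ∂μ +
        ∑ k ∈ K, ENNReal.ofReal (C1 * Tm k) →
      ∫⁻ F in S, ENNReal.ofReal (Wd n Q F) ∂μ ≤
        ENNReal.ofReal (Cs * 16 ^ b * (Sq * (P2 + Ee * P1))) →
      quad q n ρ Q ≤ CF * SM + fail CF c' s (CF * (n : ℝ) ^ 40 *
        Real.exp (-((2 * n : ℕ) : ℝ) ^ c')) n a z := by
    intro S K hK hA hB
    have hsum : ∑ k ∈ K, ENNReal.ofReal (C1 * Tm k) ≤ ENNReal.ofReal (C1 * SM) := by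
      rw [← ENNReal.ofReal_sum_of_nonneg (fun k _ => mul_nonneg hC10 (hTm0 k)), ← Finset.mul_sum]
      apply ENNReal.ofReal_le_ofReal
      exact mul_le_mul_of_nonneg_left
        (Finset.sum_le_sum_of_subset_of_nonneg hK (fun k _ _ => hTm0 k)) hC10
    have hB' : 0 ≤ Cs * 16 ^ b * (Sq * (P2 + Ee * P1)) := by positivity
    have hq := quad_le (q := q) (ρ := ρ) (Q := Q) (n := n)
      (B := Cs * 16 ^ b * (Sq * (P2 + Ee * P1)) + C1 * SM) (by positivity) (by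
        refine hA.trans ?_
        rw [ENNReal.ofReal_add hB' (by positivity)]
        exact add_le_add hB hsum)
    refine hq.trans ?_
    have hf : fail CF c' s (CF * (n : ℝ) ^ 40 * Real.exp (-((2 * n : ℕ) : ℝ) ^ c')) n a z =
        CF * 16 ^ b * Real.exp (-(11 * ((b : ℝ) - a))) * Real.exp (-(c' * xb ^ s)) +
          CF * (n : ℝ) ^ 40 * P2 := by
      unfold fail
      rw [if_pos hdom]
    rw [hf]
    have g1 : Cs * 16 ^ b * (Sq * P2) ≤ CF * (n : ℝ) ^ 40 * P2 := by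
      have e1 : Cs * 16 ^ b * (Sq * P2) ≤ Cs * (2 * (n : ℝ) ^ 40) * (Sq * P2) := by gcongr
      have e2 : Cs * Sq * 2 ≤ CF := by
        have : 0 ≤ Cs * Sq * Ee := by positivity
        rw [hCF]; linarith
      calc Cs * 16 ^ b * (Sq * P2) ≤ Cs * (2 * (n : ℝ) ^ 40) * (Sq * P2) := e1
        _ = Cs * Sq * 2 * ((n : ℝ) ^ 40 * P2) := by ring
        _ ≤ CF * ((n : ℝ) ^ 40 * P2) := mul_le_mul_of_nonneg_right e2 (by positivity)
        _ = _ := by ring
    have g2 : Cs * 16 ^ b * (Sq * (Ee * P1)) ≤ CF * 16 ^ b *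
        Real.exp (-(11 * ((b : ℝ) - a))) * Real.exp (-(c' * xb ^ s)) := by
      have e2 : Cs * Sq * Ee ≤ CF := by
        have : 0 ≤ Cs * Sq * 2 := by positivity
        rw [hCF]; linarith
      calc Cs * 16 ^ b * (Sq * (Ee * P1)) = Cs * Sq * Ee * (16 ^ b * P1) := by ring
        _ ≤ CF * (16 ^ b * P1) := mul_le_mul_of_nonneg_right e2 (by positivity)
        _ = _ := by rw [hP1]; ring
    have g3 : C1 * SM ≤ CF * SM := by
      apply mul_le_mul_of_nonneg_right _ hSM0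
      have : 0 ≤ Cs * Sq * (Ee + 2) := by positivity
      rw [hCF]; linarith
    nlinarith only [g1, g2, g3]
  rcases eq_or_lt_of_le b1 with hab | hab
  · -- the tile is close to an end point
    refine hfinal {F | Wd n Q F ≠ 0} ∅ (Finset.empty_subset _) ?_ ?_
    · refine (lint_split μ _ {F | Wd n Q F ≠ 0} ∅ (fun _ => ∅) (fun _ => 0) ?_).trans ?_
      · intro F
        by_cases h : Wd n Q F = 0
        · left; rw [h]; simp
        · right; left; exact h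
      · simp
    · have hp : μ {F | Wd n Q F ≠ 0} ≤ ENNReal.ofReal
          (4 * (Ct * Real.exp (-((2 * n : ℕ) : ℝ) ^ ct) +
            Ct * Real.exp (-(ct * (|(z.2 : ℝ)| * 16 ^ a / 16 ^ a) ^ st)))) := by
        refine (measure_mono (fun F hF => Wd_touch h_TC0 hF)).trans ?_
        exact four_le (hTCH n a a z (by omega) hca le_rfl
          (by have hb2 := b2; rw [← hab] at hb2; exact hb2))
      have h5 := hCSW n a b z ρ {F | Wd n Q F ≠ 0} _ (by omega) hca b1 b3 b2 (by positivity) hp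
      refine h5.trans (ENNReal.ofReal_le_ofReal ?_)
      apply mul_le_mul_of_nonneg_left _ (by positivity)
      rw [← hN]
      have hxa : |(z.2 : ℝ)| * 16 ^ a / 16 ^ a = xb := by rw [hxb, hab]
      rw [hxa]
      have e1 : 4 * (Ct * Real.exp (-(N : ℝ) ^ ct) + Ct * Real.exp (-(ct * xb ^ st))) =
          4 * Ct * Real.exp (-(N : ℝ) ^ ct) + 4 * Ct * Real.exp (-(ct * xb ^ st)) := by ring
      rw [e1]
      refine (sqrt_add_le' (by positivity) (by positivity)).trans ?_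
      rw [sqrt_mul_exp (by positivity), sqrt_mul_exp (by positivity)]
      have e2 : Real.exp (-((N : ℝ) ^ ct / 2)) ≤ P2 :=
        (hh1 N (by omega)).trans (exp_anti_rpow hNr (min_le_left _ _))
      have e3 : Real.exp (-(ct * xb ^ st / 2)) ≤ Ee * P1 := by
        have f1 : Real.exp (-(ct * xb ^ st / 2)) ≤ Real.exp (-(c' * xb ^ st)) := by
          apply Real.exp_le_exp.2
          have := mul_le_mul_of_nonneg_right (min_le_left (ct / 2) (cq / 2))
            (Real.rpow_nonneg hxb0 st)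
          rw [← hc'] at this
          linarith
        have f2 := exp_rpow_le hxb0 hc'0.le hs0 (min_le_left st sq)
        have f3 : Real.exp (-(11 * ((b : ℝ) - a))) = 1 := by
          rw [← hab, sub_self, mul_zero, neg_zero, Real.exp_zero]
        have f4 : 1 ≤ Real.exp 13 := Real.one_le_exp (by norm_num)
        have f5 : 0 < Real.exp c' * Real.exp (-(c' * xb ^ s)) := by positivity
        rw [hP1, f3, one_mul, hEe]
        calc Real.exp (-(ct * xb ^ st / 2)) ≤ Real.exp c' * Real.exp (-(c' * xb ^ s)) :=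
              f1.trans f2
          _ ≤ Real.exp 13 * (Real.exp c' * Real.exp (-(c' * xb ^ s))) := by nlinarith only [hq0, hq1, f4, f5]
          _ = _ := by ring
      have e4 : √(4 * Ct) ≤ Sq := by rw [hSq]; linarith [Real.sqrt_nonneg Cq]
      calc √(4 * Ct) * Real.exp (-((N : ℝ) ^ ct / 2)) +
            √(4 * Ct) * Real.exp (-(ct * xb ^ st / 2)) ≤ √(4 * Ct) * P2 +
            √(4 * Ct) * (Ee * P1) := by gcongr
        _ = √(4 * Ct) * (P2 + Ee * P1) := by ring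
        _ ≤ Sq * (P2 + Ee * P1) := mul_le_mul_of_nonneg_right e4 (by positivity)
  · -- the tile is far from the end points
    obtain ⟨hz1, hz2⟩ := b4 hab
    obtain ⟨I, hI⟩ : ∃ I, b = I + 1 := ⟨b - 1, by omega⟩
    have haI : a ≤ I := by omega
    rw [hI] at hz1 hz2 b2
    set m : ℕ := (I - a) / 2 with hm
    set Xc := Xn c0 N with hXc
    obtain ⟨x1, x2, x3, x4, x5, x6⟩ := hCHX N a (by omega) hca
    have hk0a : k₀ ≤ a := by
      have := (le_max_right (16 * (c.A : ℝ)) k₀).trans x2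
      exact_mod_cast this
    have h16A : 16 * c.A ≤ Xc := by
      have := (le_max_left (16 * (c.A : ℝ)) k₀).trans x3
      exact_mod_cast this
    have h64b : (64 : ℕ) ^ b ≤ 2 * n := b3
    set S : Set (PEnv × PEnv) := {F | Wd n Q F ≠ 0 ∧ ¬ (RegF c Xc a I m n z F ∧
      ∃ k, a ≤ k ∧ k ≤ a + m ∧ JQ c Xc a I k z F)} with hS
    refine hfinal S (Finset.Icc a (a + m)) ?_ ?_ ?_
    · intro k hk
      rw [Finset.mem_Icc] at hk
      have hkb : (64 : ℕ) ^ k ≤ 2 * n :=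
        (Nat.pow_le_pow_right (by norm_num) (by omega)).trans h64b
      rw [Finset.mem_filter, Finset.mem_Icc]
      exact ⟨⟨hk.1, le_of_pow (by omega) hkb⟩, hkb⟩
    · refine (lint_split μ _ S (Finset.Icc a (a + m)) (fun k => {F | GK c Xc a I n k z F})
        (fun k => ENNReal.ofReal (K3 * 16 ^ k)) ?_).trans (add_le_add le_rfl
          (Finset.sum_le_sum fun k hk => ?_))
      · intro F
        by_cases h0 : Wd n Q F = 0
        · left; rw [h0]; simp
        by_cases hR : RegF c Xc a I m n z F ∧ ∃ k, a ≤ k ∧ k ≤ a + m ∧ JQ c Xc a I k z F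
        · right; right
          obtain ⟨hReg, hex⟩ := hR
          obtain ⟨k1, k2, k3⟩ := Nat.find_spec hex
          have hmin : ∀ j, a ≤ j → j < Nat.find hex → ¬ JQ c Xc a I j z F := by
            intro j hj1 hj2 hj3
            exact Nat.find_min hex hj2 ⟨hj1, by omega, hj3⟩
          obtain ⟨w1, w2⟩ := Wd_ne h0
          obtain ⟨g1, g2, g3⟩ := hKG2 δ (max 1 Cg0) p₀ k₀ c Xc a I m n (Nat.find hex) z F hPK
            (le_max_right _ _) hOK.k0 hk0a h16A x5 k1 k2 (by omega) hz1 hz2 hReg k3 hmin w1 w2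
          refine ⟨Nat.find hex, Finset.mem_Icc.2 ⟨k1, k2⟩, g1, ?_⟩
          apply ENNReal.ofReal_le_ofReal
          unfold Wd
          have h4 : (0 : ℝ) < 4 ^ Nat.find hex := by positivity
          have h16 : (16 : ℝ) ^ Nat.find hex = 4 ^ Nat.find hex * 4 ^ Nat.find hex := by
            rw [← mul_pow]; norm_num
          calc _ ≤ ((2 * c.K * (1 + c.B) + sg q * c.B ^ 2) * 4 ^ Nat.find hex) *
                ((2 * c.K * (1 + c.B) + sg q * c.B ^ 2) * 4 ^ Nat.find hex) :=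
                mul_le_mul g2 g3 (abs_nonneg _) ((abs_nonneg _).trans g2)
            _ = K3 * 16 ^ Nat.find hex := by rw [hK3, h16]; ring
        · right; left
          exact ⟨h0, hR⟩
      · rw [Finset.mem_Icc] at hk
        exact good_scale h_KG3 h_KG4 hq0 hq1 hOK hPK h16A x5 x6 hk0a x1 hk.1 (by omega) hz1 hz2
          hrk hρ K3 hK30
    · have hp : μ S ≤ ENNReal.ofReal (Cq * Real.exp (-((2 * n : ℕ) : ℝ) ^ cq) +
          Cq * Real.exp (-(M / 4 * ((I : ℝ) - a))) *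
            Real.exp (-(cq * (|(z.2 : ℝ)| * 16 ^ a / 16 ^ I) ^ sq))) := by
        refine (measure_mono ?_).trans (hPFL n a I z ρ (by omega) hca haI hz1 hz2 b2)
        rintro F ⟨hF1, hF2⟩
        exact ⟨Wd_touch h_TC0 hF1, hF2⟩
      have h5 := hCSW n a b z ρ S _ (by omega) hca b1 b3 (by rw [hI]; exact b2) (by positivity) hp
      refine h5.trans (ENNReal.ofReal_le_ofReal ?_)
      apply mul_le_mul_of_nonneg_left _ (by positivity)
      rw [← hN]
      set xI : ℝ := |(z.2 : ℝ)| * 16 ^ a / 16 ^ I with hxI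
      have hxI0 : 0 ≤ xI := by positivity
      have hxbI : xb ≤ xI := by
        rw [hxb, hxI, hI, pow_succ]
        apply div_le_div_of_nonneg_left (by positivity) (by positivity)
        have : (0 : ℝ) < 16 ^ I := by positivity
        linarith
      refine (sqrt_add_le' (by positivity) (by positivity)).trans ?_
      have e0 : Cq * Real.exp (-(M / 4 * ((I : ℝ) - a))) * Real.exp (-(cq * xI ^ sq)) =
          Cq * Real.exp (-(M / 4 * ((I : ℝ) - a) + cq * xI ^ sq)) := by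
        rw [mul_assoc, ← Real.exp_add]
        congr 2; ring
      rw [e0, sqrt_mul_exp hCq.le, sqrt_mul_exp hCq.le]
      have e2 : Real.exp (-((N : ℝ) ^ cq / 2)) ≤ P2 :=
        (hh2 N (by omega)).trans (exp_anti_rpow hNr (min_le_right _ _))
      have e3 : Real.exp (-((M / 4 * ((I : ℝ) - a) + cq * xI ^ sq) / 2)) ≤ Ee * P1 := by
        have f0 : Real.exp (-((M / 4 * ((I : ℝ) - a) + cq * xI ^ sq) / 2)) =
            Real.exp (-(M / 8 * ((I : ℝ) - a))) * Real.exp (-(cq * xI ^ sq / 2)) := by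
          rw [← Real.exp_add]; congr 1; ring
        have f1 : Real.exp (-(cq * xI ^ sq / 2)) ≤ Real.exp (-(c' * xI ^ sq)) := by
          apply Real.exp_le_exp.2
          have := mul_le_mul_of_nonneg_right (min_le_right (ct / 2) (cq / 2))
            (Real.rpow_nonneg hxI0 sq)
          rw [← hc'] at this
          linarith only [this]
        have f2 := exp_rpow_le hxI0 hc'0.le hs0 (min_le_right st sq)
        have f3 : Real.exp (-(c' * xI ^ s)) ≤ Real.exp (-(c' * xb ^ s)) := by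
          apply Real.exp_le_exp.2
          have := mul_le_mul_of_nonneg_left (Real.rpow_le_rpow hxb0 hxbI hs0.le) hc'0.le
          linarith
        have f4 : Real.exp (-(cq * xI ^ sq / 2)) ≤ Real.exp c' * Real.exp (-(c' * xb ^ s)) :=
          (f1.trans f2).trans (mul_le_mul_of_nonneg_left f3 (Real.exp_pos _).le)
        have f5 : Real.exp (-(M / 8 * ((I : ℝ) - a))) ≤
            Real.exp 13 * Real.exp (-(11 * ((b : ℝ) - a))) := by
          rw [← Real.exp_add]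
          apply Real.exp_le_exp.2
          have g1 : (b : ℝ) = I + 1 := by rw [hI]; push_cast; ring
          have g2 : (a : ℝ) ≤ I := by exact_mod_cast haI
          rw [g1]
          nlinarith only [g2, hq0, hq1, hM]
        rw [f0, hP1, hEe]
        calc Real.exp (-(M / 8 * ((I : ℝ) - a))) * Real.exp (-(cq * xI ^ sq / 2)) ≤
              (Real.exp 13 * Real.exp (-(11 * ((b : ℝ) - a)))) *
                (Real.exp c' * Real.exp (-(c' * xb ^ s))) :=
              mul_le_mul f5 f4 (Real.exp_pos _).le (by positivity)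
          _ = _ := by ring
      have e4 : √Cq ≤ Sq := by rw [hSq]; linarith [Real.sqrt_nonneg (4 * Ct)]
      calc √Cq * Real.exp (-((N : ℝ) ^ cq / 2)) +
            √Cq * Real.exp (-((M / 4 * ((I : ℝ) - a) + cq * xI ^ sq) / 2)) ≤ √Cq * P2 +
            √Cq * (Ee * P1) := by gcongr
        _ = √Cq * (P2 + Ee * P1) := by ring
        _ ≤ Sq * (P2 + Ee * P1) := mul_le_mul_of_nonneg_right e4 (by positivity)

end Pool.Agent.H29.ND
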