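import Pool.Agent.H76.ND.Targets2

/-!
# Part D of MP_57ddd5_pr: irregular behaviour at a tile touched by a geodesic
-/

open MeasureTheory ProbabilityTheory Filter Topology
open scoped ENNReal

namespace Pool.Agent.H29.ND

open Pool.Agent.H99.NS Pool.Agent.H22.LPP Pool.Agent.H95.INS Pool.Agent.H76.ND
open Pool.Agent.H97.NF (PEnv eA eB PN glue ff Infx domN tile kbox rk quad mp_eA mp_eB
  mp_glue_self)
open Pool.Agent.H95.ND (Sml I_N PK JCs)

/-! ### The laws of the four environments -/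

theorem mp_X4 (q : ℝ) (ρ : Site → ℝ) (Q : Set Site) (l : Fin 4) :
    MeasurePreserving (X4 Q l) ((PN q ρ).prod (PN q ρ)) (PE q) := by
  have h0 : MeasurePreserving (Prod.fst : PEnv × PEnv → PEnv) ((PN q ρ).prod (PN q ρ))
    (PN q ρ) := measurePreserving_fst
  have hg := mp_glue_self q Q ρ
  fin_cases l
  · have : X4 Q 0 = eA ∘ (Prod.fst : PEnv × PEnv → PEnv) := by funext F; simp [X4]
    simp only [Fin.zero_eta]
    rw [this]
    exact (mp_eA q ρ).comp h0
  · have : X4 Q 1 = eA ∘ (fun p : PEnv × PEnv => glue Q p.1 p.2) := by funext F; simp [X4]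
    simp only [Fin.mk_one]
    rw [this]
    exact (mp_eA q ρ).comp hg
  · have : X4 Q 2 = eB ∘ (Prod.fst : PEnv × PEnv → PEnv) := by funext F; simp [X4]
    simp only [Fin.reduceFinMk]
    rw [this]
    exact (mp_eB q ρ).comp h0
  · have : X4 Q 3 = eB ∘ (fun p : PEnv × PEnv => glue Q p.1 p.2) := by funext F; simp [X4]
    simp only [Fin.reduceFinMk]
    rw [this]
    exact (mp_eB q ρ).comp hg

theorem four_le {q : ℝ} {ρ : Site → ℝ} {Q : Set Site} {P : Env → Prop} {b : ℝ}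
    (h : PE q {ω | P ω} ≤ ENNReal.ofReal b) :
    ((PN q ρ).prod (PN q ρ)) {F | ∃ l, P (X4 Q l F)} ≤ ENNReal.ofReal (4 * b) := by
  have h1 : {F : PEnv × PEnv | ∃ l, P (X4 Q l F)} = ⋃ l, (X4 Q l) ⁻¹' {ω | P ω} := by
    ext F; simp
  rw [h1]
  refine (measure_iUnion_fintype_le _ _).trans ?_
  calc ∑ l : Fin 4, ((PN q ρ).prod (PN q ρ)) ((X4 Q l) ⁻¹' {ω | P ω}) ≤
        ∑ _l : Fin 4, ENNReal.ofReal b :=
        Finset.sum_le_sum fun l _ => ((mp_X4 q ρ Q l).measure_preimage_le _).trans h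
    _ = ENNReal.ofReal (4 * b) := by
        rw [Finset.sum_const, Finset.card_univ, Fintype.card_fin, nsmul_eq_mul,
          ENNReal.ofReal_mul (by norm_num)]
        norm_num

/-! ### Real inequalities -/

theorem absorb (C c : ℝ) (hC : 0 ≤ C) (hc : 0 < c) : ∃ N0 : ℕ, ∀ N : ℕ, N0 ≤ N →
    C * ((N : ℝ) + 1) * Real.exp (-(N : ℝ) ^ c) ≤ Real.exp (-(N : ℝ) ^ (c / 2)) := by
  have hc2 : 0 < c / 2 := by positivity
  have t1 : ∀ᶠ x : ℝ in atTop, 4 * Real.log (2 * (C + 1)) ≤ x ^ c :=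
    (tendsto_rpow_atTop hc).eventually_ge_atTop _
  have t2 : ∀ᶠ x : ℝ in atTop, ‖Real.log x‖ ≤ 1 / 4 * ‖x ^ c‖ :=
    (isLittleO_log_rpow_atTop hc).bound (by norm_num)
  have t3 : ∀ᶠ x : ℝ in atTop, 4 ≤ x ^ (c / 2) :=
    (tendsto_rpow_atTop hc2).eventually_ge_atTop _
  have t := (t1.and (t2.and (t3.and (eventually_ge_atTop 1))))
  have t' := tendsto_natCast_atTop_atTop.eventually (f := fun n : ℕ => (n : ℝ)) t
  obtain ⟨N0, hN0⟩ := eventually_atTop.1 t'
  refine ⟨N0, fun N hN => ?_⟩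
  obtain ⟨h1, h2, h3, h4⟩ := hN0 N hN
  set x : ℝ := (N : ℝ) with hx
  have hx0 : 0 < x := by linarith
  have h5 : x ^ c = x ^ (c / 2) * x ^ (c / 2) := by
    rw [← Real.rpow_add hx0]; congr 1; ring
  have h6 : 0 < x ^ c := Real.rpow_pos_of_pos hx0 c
  have h7 : Real.log x ≤ 1 / 4 * x ^ c := by
    have := (le_abs_self (Real.log x)).trans h2
    rwa [Real.norm_of_nonneg h6.le] at this
  have h8 : 4 * x ^ (c / 2) ≤ x ^ c := by
    rw [h5]
    exact mul_le_mul_of_nonneg_right h3 (by linarith)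
  have h9 : C * (x + 1) ≤ Real.exp (Real.log (2 * (C + 1)) + Real.log x) := by
    rw [Real.exp_add, Real.exp_log (by positivity), Real.exp_log hx0]
    nlinarith only [h4, hC]
  calc C * (x + 1) * Real.exp (-x ^ c) ≤
        Real.exp (Real.log (2 * (C + 1)) + Real.log x) * Real.exp (-x ^ c) :=
        mul_le_mul_of_nonneg_right h9 (Real.exp_pos _).le
    _ = Real.exp (Real.log (2 * (C + 1)) + Real.log x + -x ^ c) := by rw [← Real.exp_add]
    _ ≤ Real.exp (-x ^ (c / 2)) := Real.exp_le_exp.2 (by linarith)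

theorem geo_absorb (c s M : ℝ) (hc : 0 < c) (hs : 0 < s) (hM : 0 < M) : ∃ C : ℝ, 0 < C ∧
    ∀ j : ℕ, Real.exp (-(c * ((8 / 3 : ℝ) ^ j) ^ s)) ≤ C * Real.exp (-(M * j)) := by
  set B : ℝ := (8 / 3 : ℝ) ^ s with hB
  have hB1 : 1 < B := Real.one_lt_rpow (by norm_num) hs
  have hBj : ∀ j : ℕ, ((8 / 3 : ℝ) ^ j) ^ s = B ^ j := by
    intro j
    rw [hB, ← Real.rpow_natCast, ← Real.rpow_natCast, ← Real.rpow_mul (by norm_num),
      ← Real.rpow_mul (by norm_num), mul_comm]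
  have h1 := tendsto_pow_const_div_const_pow_of_one_lt 1 hB1
  have h2 : ∀ᶠ n : ℕ in atTop, (n : ℝ) ^ 1 / B ^ n < c / M :=
    h1.eventually_lt_const (by positivity)
  obtain ⟨J, hJ⟩ := eventually_atTop.1 h2
  refine ⟨Real.exp (M * J), Real.exp_pos _, fun j => ?_⟩
  rw [hBj, ← Real.exp_add]
  apply Real.exp_le_exp.2
  have hJ0 : 0 ≤ M * (J : ℝ) := by positivity
  rcases le_or_gt J j with h | h
  · have h3 := hJ j h
    have hBp : 0 < B ^ j := by positivity
    rw [pow_one, div_lt_div_iff₀ hBp hM] at h3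
    linarith
  · have h3 : (j : ℝ) ≤ J := by exact_mod_cast h.le
    have h4 : M * (j : ℝ) ≤ M * J := mul_le_mul_of_nonneg_left h3 hM.le
    have h5 : 0 ≤ c * B ^ j := by positivity
    linarith

theorem min_le_sqrt_mul {u v : ℝ} (hu : 0 ≤ u) (hv : 0 ≤ v) : min u v ≤ √(u * v) := by
  apply Real.le_sqrt_of_sq_le
  rcases le_total u v with h | h
  · rw [min_eq_left h]; nlinarith
  · rw [min_eq_right h]; nlinarith

theorem exp_anti_rpow {x c c' : ℝ} (hx : 1 ≤ x) (h : c' ≤ c) :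
    Real.exp (-x ^ c) ≤ Real.exp (-x ^ c') :=
  Real.exp_le_exp.2 (neg_le_neg (Real.rpow_le_rpow_of_exponent_le hx h))

/-! ### Scales and end points -/

theorem lv1 (I : ℕ) : lv (I + 1) = 32 * 64 ^ I := by
  unfold lv; rw [Nat.add_sub_cancel]

theorem EP_std (n : ℕ) : EP (0, 0) (eN n) (2 * n) := by
  refine ⟨?_, ?_, ⟨?_, ?_⟩, ?_⟩
  · simp [eN]
  · have : dx (0, 0) (eN n) = 0 := by simp [dx, eN]
    rw [this, abs_zero]
    positivity
  · simp [eN]
  · simp [eN]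
  · simp

theorem scale_le {I n : ℕ} {w : ℤ} (h1 : lv (I + 1) ≤ w) (h2 : w + lv (I + 1) ≤ 2 * n) :
    64 ^ (I + 1) ≤ 2 * n := by
  rw [lv1] at h1 h2
  have h3 : (64 : ℤ) ^ (I + 1) ≤ 2 * n := by rw [pow_succ]; linarith
  exact_mod_cast h3

theorem pf_PFL (h_TCH : T_TCH) (h_PDT : T_PDT) (h_RGA : T_RGA) (h_PCR : T_PCR) (h_CHX : T_CHX)
    (h_RFA : T_RFA) : T_PFL := by
  intro q c0 M Cg κ c₁ p₀ k₀ c hq0 hq1 hc0 hc01 hM hLT hIN hOK
  obtain ⟨δ, hPK⟩ := hOK.pk
  have hcq := hPK.hq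
  subst hcq
  obtain ⟨Ct, ct, st, nt, hCt, hct, hst, hTCH⟩ := h_TCH c.q c0 hq0 hq1 hc0 hc01 hLT hIN
  obtain ⟨Cp, cp, sp, np, hCp, hcp, hsp, hPDT⟩ := h_PDT c.q c0 hq0 hq1 hc0 hc01 hLT hIN
  obtain ⟨Cc, cc, hCc, hcc, hPCR⟩ := h_PCR c.q c0 hq0 hq1 hc0 hc01
  obtain ⟨nr, hRGA⟩ := h_RGA c.q c0 0 hq0 hq1 hc0 hc01 le_rfl
  obtain ⟨nx, hCHX⟩ := h_CHX c0 (max (16 * (c.A : ℝ)) k₀) hc0 hc01
  obtain ⟨Cf, cf, nf, hCf, hcf, hRFA⟩ := h_RFA c.q c0 c p₀ hq0 hq1 hc0 hc01 rfl
    (by linarith [hPK.H1]) hPK.p0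
  obtain ⟨na, hna⟩ := absorb (4 * Cf) cf (by positivity) hcf
  obtain ⟨CM, hCM, hgeo⟩ := geo_absorb cp sp M hcp hsp hM
  -- constants
  set cm : ℝ := min cc (min (cf / 2) (min ct cp)) with hcm
  have hcm0 : 0 < cm := by
    rw [hcm]
    exact lt_min hcc (lt_min (by positivity) (lt_min hct hcp))
  have m1 : cm ≤ cc := min_le_left _ _
  have m2 : cm ≤ cf / 2 := (min_le_right _ _).trans (min_le_left _ _)
  have m3 : cm ≤ ct := (min_le_right _ _).trans ((min_le_right _ _).trans (min_le_left _ _))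
  have m4 : cm ≤ cp := (min_le_right _ _).trans ((min_le_right _ _).trans (min_le_right _ _))
  set cx : ℝ := ct / 2 * (1 / 16) ^ st with hcx
  have hcx0 : 0 < cx := by positivity
  set Kf : ℝ := √(4 * Ct * (4 * Cp * CM + 4)) with hKf
  have hKf0 : 0 ≤ Kf := Real.sqrt_nonneg _
  refine ⟨4 * Cc + 1 + 4 * Ct + 4 * Cp + Kf, min cm cx, st,
    max 1 (max nt (max np (max nr (max nx (max nf na))))), by positivity,
    lt_min hcm0 hcx0, hst, ?_⟩
  intro n a I z ρ hn hca haI hz1 hz2 hz3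
  simp only [max_le_iff] at hn
  obtain ⟨n1, n2, n3, n4, n5, n6, n7⟩ := hn
  set N : ℕ := 2 * n with hN
  set Xc := Xn c0 N with hXc
  set Q := tile a z with hQ
  set μ := (PN c.q ρ).prod (PN c.q ρ) with hμ
  have hN1 : 1 ≤ N := by omega
  have hNr : (1 : ℝ) ≤ N := by exact_mod_cast hN1
  have hEP := EP_std n
  rw [← hN] at hEP
  obtain ⟨x1, x2, x3, x4, x5, x6⟩ := hCHX N a (by omega) hca
  have hk0a : k₀ ≤ a := by
    have := (le_max_right (16 * (c.A : ℝ)) k₀).trans x2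
    exact_mod_cast this
  have h16A : 16 * c.A ≤ Xc := by
    have := (le_max_left (16 * (c.A : ℝ)) k₀).trans x3
    exact_mod_cast this
  have h64I : 64 ^ (I + 1) ≤ N := scale_le hz1 hz2
  have h64 : ∀ k, k ≤ I → (64 : ℕ) ^ k ≤ N := fun k hk =>
    (Nat.pow_le_pow_right (by norm_num) (by omega)).trans h64I
  have h64r : ∀ k, k ≤ I → (64 : ℝ) ^ k ≤ N := fun k hk => by exact_mod_cast h64 k hk
  have hIN' : I ≤ N := (Nat.lt_pow_self (by norm_num : 1 < 64)).le.trans (h64 I le_rfl)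
  set m : ℕ := (I - a) / 2 with hm
  -- the events
  set A1 : Set (PEnv × PEnv) := {F | ∃ l, ¬ Crd c.q c0 (0, 0) N (X4 Q l F)} with hA1
  set A2 : Set (PEnv × PEnv) := {F | ∃ k ∈ Finset.Icc a I, ∃ l,
    ¬ RF (dk c Xc k) (shiftE (cen a z) (X4 Q l F)) ((0, 0) - cen a z) (eN n - cen a z)} with hA2
  set A3 : Set (PEnv × PEnv) := {F | ∃ l, Tch a n z (X4 Q l F)} with hA3
  set A4 : Set (PEnv × PEnv) := {F | ∃ l, ∃ g, Near (X4 Q l F) (0, 0) (eN n) 0 g ∧
    ∃ t1 : ℤ, -lv a ≤ t1 ∧ t1 ≤ lv a ∧ (8 / 3 : ℝ) ^ (I - a - m) ≤ Dt I t1 (sh a z g)} with hA4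
  set A5 : Set (PEnv × PEnv) := {F | ∀ j, a ≤ j → j < a + m + 1 →
    ∃ l, ¬ good c Xc a I j (shiftE (cen a z) (X4 Q l F))} with hA5
  have hsub : {F | (∃ l, Tch a n z (X4 Q l F)) ∧ ¬ (RegF c Xc a I m n z F ∧
      ∃ k, a ≤ k ∧ k ≤ a + m ∧ JQ c Xc a I k z F)} ⊆ A1 ∪ (A2 ∪ (A3 ∩ (A4 ∪ A5))) := by
    rintro F ⟨hF1, hF2⟩
    by_contra hc
    simp only [Set.mem_union, Set.mem_inter_iff, not_or, not_and] at hc
    obtain ⟨g1, g2, g3⟩ := hc
    obtain ⟨g4, g5⟩ := g3 hF1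
    apply hF2
    refine ⟨⟨?_, ?_, ?_⟩, ?_⟩
    · intro l g hg
      rw [hA1, Set.mem_ofPred_eq, not_exists] at g1
      have hcr := g1 l
      rw [not_not] at hcr
      exact hRGA N (0, 0) (eN n) (X4 Q l F) a (by omega) hEP hcr hca (h64 a haI) g
        (by rw [zero_mul]; exact hg)
    · intro k hk1 hk2
      rw [hA2, Set.mem_ofPred_eq] at g2
      have hall : ∀ l, RF (dk c Xc k) (shiftE (cen a z) (X4 Q l F)) ((0, 0) - cen a z)
          (eN n - cen a z) := by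
        intro l
        by_contra hl
        exact g2 ⟨k, Finset.mem_Icc.2 ⟨hk1, hk2⟩, l, hl⟩
      have e0 : X4 Q 0 F = eA F.1 := by simp [X4]
      have e2 : X4 Q 2 F = eB F.1 := by simp [X4]
      exact ⟨e0 ▸ hall 0, e2 ▸ hall 2⟩
    · intro l g hg t1 ht1 ht2 _
      by_contra hD
      rw [not_le] at hD
      apply g4
      refine ⟨l, g, hg, t1, ht1, ht2, ?_⟩
      have e1 : (8 / 3 : ℝ) ^ (I - a - m) * (3 / 8) ^ (I - a - m) = 1 := by
        rw [← mul_pow]; norm_num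
      have e2 : (0 : ℝ) < (8 / 3 : ℝ) ^ (I - a - m) := by positivity
      have e3 := mul_lt_mul_of_pos_left hD e2
      rw [← mul_assoc, e1, one_mul, mul_one] at e3
      exact e3.le
    · by_contra hk
      apply g5
      intro j hj1 hj2
      by_contra hl
      apply hk
      refine ⟨j, hj1, by omega, fun l => ?_⟩
      by_contra hl2
      exact hl ⟨l, hl2⟩
  -- probabilities
  set E : ℝ := Real.exp (-(N : ℝ) ^ cm) with hE
  have hE0 : 0 < E := Real.exp_pos _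
  have p1 : μ A1 ≤ ENNReal.ofReal (4 * Cc * E) := by
    refine (four_le (b := Cc * Real.exp (-(N : ℝ) ^ cc)) (hPCR (0, 0) N hN1)).trans
      (ENNReal.ofReal_le_ofReal ?_)
    rw [mul_assoc]
    gcongr
    exact exp_anti_rpow hNr m1
  have p2 : μ A2 ≤ ENNReal.ofReal (1 * E) := by
    have hset : A2 = ⋃ k ∈ Finset.Icc a I, {F | ∃ l,
        ¬ RF (dk c Xc k) (shiftE (cen a z) (X4 Q l F)) ((0, 0) - cen a z)
          (eN n - cen a z)} := by
      ext F; simp [hA2]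
    rw [hset]
    refine (measure_biUnion_finset_le _ _).trans ?_
    have hb : ∀ k ∈ Finset.Icc a I, μ {F | ∃ l,
        ¬ RF (dk c Xc k) (shiftE (cen a z) (X4 Q l F)) ((0, 0) - cen a z)
          (eN n - cen a z)} ≤ ENNReal.ofReal (4 * (Cf * Real.exp (-(N : ℝ) ^ cf))) := by
      intro k hk
      rw [Finset.mem_Icc] at hk
      refine four_le (P := fun ω => ¬ RF (dk c Xc k) (shiftE (cen a z) ω) ((0, 0) - cen a z)
        (eN n - cen a z)) ?_
      have h4k : (4 : ℤ) ^ a ≤ 4 ^ k := pow_le_pow_right₀ (by norm_num) hk.1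
      have hlv : lv k ≤ lv (I + 1) := by
        unfold lv
        have : (64 : ℤ) ^ (k - 1) ≤ 64 ^ (I + 1 - 1) :=
          pow_le_pow_right₀ (by norm_num) (by omega)
        linarith
      refine hRFA N (0, 0) (eN n) (cen a z) k (by omega) hEP
        (hca.trans (pow_le_pow_right₀ (by norm_num) hk.1)) (h64 k hk.2) ?_ ?_ ?_
      · simp only [cen]; linarith
      · simp only [cen, eN]; linarith
      · exact hPK.ph Xc k (by omega) h16A (by linarith [hPK.A1])
    refine (Finset.sum_le_sum hb).trans ?_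
    rw [Finset.sum_const, nsmul_eq_mul, Nat.card_Icc]
    have hcard : ((I + 1 - a : ℕ) : ℝ≥0∞) ≤ ENNReal.ofReal ((N : ℝ) + 1) := by
      rw [← ENNReal.ofReal_natCast]
      apply ENNReal.ofReal_le_ofReal
      have : (I + 1 - a : ℕ) ≤ N + 1 := by omega
      exact_mod_cast this
    calc ((I + 1 - a : ℕ) : ℝ≥0∞) * ENNReal.ofReal (4 * (Cf * Real.exp (-(N : ℝ) ^ cf))) ≤
          ENNReal.ofReal ((N : ℝ) + 1) * ENNReal.ofReal (4 * (Cf * Real.exp (-(N : ℝ) ^ cf))) :=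
          mul_le_mul_left hcard _
      _ = ENNReal.ofReal (4 * Cf * ((N : ℝ) + 1) * Real.exp (-(N : ℝ) ^ cf)) := by
          rw [← ENNReal.ofReal_mul (by positivity)]
          congr 1; ring
      _ ≤ ENNReal.ofReal (1 * E) := by
          apply ENNReal.ofReal_le_ofReal
          rw [one_mul]
          exact (hna N (by omega)).trans (exp_anti_rpow hNr m2)
  set x : ℝ := |(z.2 : ℝ)| * 16 ^ a / 16 ^ I with hx
  have hx0 : 0 ≤ x := by positivity
  set u : ℝ := 4 * Ct * Real.exp (-(ct * (|(z.2 : ℝ)| * 16 ^ a / 16 ^ (I + 1)) ^ st)) with hu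
  have p3 : μ A3 ≤ ENNReal.ofReal (4 * Ct * E + u) := by
    refine (four_le (hTCH n a (I + 1) z (by omega) hca (by omega) hz3)).trans
      (ENNReal.ofReal_le_ofReal ?_)
    rw [hu, mul_add, ← mul_assoc, ← mul_assoc]
    gcongr
    exact exp_anti_rpow hNr m3
  set d : ℝ := (I : ℝ) - a with hd
  have hd0 : 0 ≤ d := by
    have : (a : ℝ) ≤ I := by exact_mod_cast haI
    rw [hd]; linarith only [this]
  have hj : d / 2 ≤ ((I - a - m : ℕ) : ℝ) := by
    have h1 : I - a ≤ 2 * (I - a - m) := by omega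
    have h2 : ((I - a : ℕ) : ℝ) ≤ 2 * ((I - a - m : ℕ) : ℝ) := by exact_mod_cast h1
    rw [Nat.cast_sub haI] at h2
    rw [hd]; linarith only [h2]
  have hmm : d / 2 ≤ (m : ℝ) + 1 := by
    have h1 : I - a ≤ 2 * (m + 1) := by omega
    have h2 : ((I - a : ℕ) : ℝ) ≤ 2 * ((m : ℝ) + 1) := by exact_mod_cast h1
    rw [Nat.cast_sub haI] at h2
    rw [hd]; linarith only [h2]
  set G : ℝ := Real.exp (-(M / 2 * d)) with hG
  have p4 : μ A4 ≤ ENNReal.ofReal (4 * Cp * E + 4 * Cp * CM * G) := by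
    refine (four_le (hPDT n a I z ((8 / 3) ^ (I - a - m)) (by omega) hca haI hz1 hz2 hz3
      (by positivity))).trans (ENNReal.ofReal_le_ofReal ?_)
    rw [mul_add, ← mul_assoc, ← mul_assoc]
    have e1 : Real.exp (-(cp * ((8 / 3 : ℝ) ^ (I - a - m)) ^ sp)) ≤ CM * G := by
      refine (hgeo _).trans (mul_le_mul_of_nonneg_left ?_ hCM.le)
      rw [hG]
      apply Real.exp_le_exp.2
      have := mul_le_mul_of_nonneg_left hj hM.le
      nlinarith only [this]
    have e2 : 4 * Cp * Real.exp (-(cp * ((8 / 3 : ℝ) ^ (I - a - m)) ^ sp)) ≤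
        4 * Cp * CM * G := by
      rw [mul_assoc (4 * Cp)]
      exact mul_le_mul_of_nonneg_left e1 (by positivity)
    have e3 : 4 * Cp * Real.exp (-((2 * n : ℕ) : ℝ) ^ cp) ≤ 4 * Cp * E := by
      gcongr
      exact exp_anti_rpow hNr m4
    linarith only [e2, e3]
  have p5 : μ A5 ≤ ENNReal.ofReal (4 * G) := by
    have hj := (hOK.jc (PEnv × PEnv) μ (fun l F => shiftE (cen a z) (X4 Q l F))
      (fun l => (mp_shiftE c.q (cen a z)).comp (mp_X4 c.q ρ Q l)) Xc a I a (a + m + 1) h16A x6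
      hk0a x1 le_rfl (by omega)).2
    refine hj.trans (ENNReal.ofReal_le_ofReal ?_)
    have e1 : ((4 : ℕ) : ℝ) = 4 := by norm_num
    rw [e1]
    gcongr
    rw [hG]
    apply Real.exp_le_exp.2
    push_cast
    have := mul_le_mul_of_nonneg_left hmm hM.le
    nlinarith only [this]
  -- combination
  set v : ℝ := (4 * Cp * CM + 4) * G with hv
  have hG0 : 0 < G := Real.exp_pos _
  have hu0 : 0 ≤ u := by positivity
  have hv0 : 0 ≤ v := by positivity
  have p45 : μ (A4 ∪ A5) ≤ ENNReal.ofReal (4 * Cp * E + v) := by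
    refine (measure_union_le _ _).trans ((add_le_add p4 p5).trans ?_)
    rw [← ENNReal.ofReal_add (by positivity) (by positivity)]
    apply ENNReal.ofReal_le_ofReal
    rw [hv]; linarith
  have p345 : μ (A3 ∩ (A4 ∪ A5)) ≤ ENNReal.ofReal (4 * Ct * E + 4 * Cp * E + √(u * v)) := by
    rcases le_total u v with h | h
    · refine (measure_mono Set.inter_subset_left).trans (p3.trans ?_)
      apply ENNReal.ofReal_le_ofReal
      have h1 := min_le_sqrt_mul hu0 hv0
      rw [min_eq_left h] at h1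
      have h2 : 0 ≤ 4 * Cp * E := by positivity
      linarith
    · refine (measure_mono Set.inter_subset_right).trans (p45.trans ?_)
      apply ENNReal.ofReal_le_ofReal
      have h1 := min_le_sqrt_mul hu0 hv0
      rw [min_eq_right h] at h1
      have h2 : 0 ≤ 4 * Ct * E := by positivity
      linarith
  have hsq : √(u * v) = Kf * Real.exp (-(cx * x ^ st)) * Real.exp (-(M / 4 * d)) := by
    have e1 : (|(z.2 : ℝ)| * 16 ^ a / 16 ^ (I + 1)) ^ st = (1 / 16) ^ st * x ^ st := by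
      rw [← Real.mul_rpow (by norm_num) hx0]
      congr 1
      rw [hx, pow_succ]; field_simp
    have e2 : u * v = 4 * Ct * (4 * Cp * CM + 4) *
        (Real.exp (-(cx * x ^ st)) * Real.exp (-(M / 4 * d))) ^ 2 := by
      rw [hu, hv, hG, e1, mul_pow, ← Real.exp_nat_mul, ← Real.exp_nat_mul]
      have e3 : ((2 : ℕ) : ℝ) * -(cx * x ^ st) = -(ct * ((1 / 16) ^ st * x ^ st)) := by
        rw [hcx]; push_cast; ring
      have e4 : ((2 : ℕ) : ℝ) * -(M / 4 * d) = -(M / 2 * d) := by push_cast; ring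
      rw [e3, e4]; ring
    rw [e2, Real.sqrt_mul (by positivity), Real.sqrt_sq (by positivity), ← hKf]
    ring
  calc μ {F | (∃ l, Tch a n z (X4 Q l F)) ∧ ¬ (RegF c Xc a I m n z F ∧
        ∃ k, a ≤ k ∧ k ≤ a + m ∧ JQ c Xc a I k z F)} ≤ μ (A1 ∪ (A2 ∪ (A3 ∩ (A4 ∪ A5)))) :=
        measure_mono hsub
    _ ≤ μ A1 + (μ A2 + μ (A3 ∩ (A4 ∪ A5))) :=
        (measure_union_le _ _).trans (add_le_add le_rfl (measure_union_le _ _))
    _ ≤ ENNReal.ofReal (4 * Cc * E) + (ENNReal.ofReal (1 * E) +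
        ENNReal.ofReal (4 * Ct * E + 4 * Cp * E + √(u * v))) :=
        add_le_add p1 (add_le_add p2 p345)
    _ = ENNReal.ofReal (4 * Cc * E + (1 * E + (4 * Ct * E + 4 * Cp * E + √(u * v)))) := by
        rw [← ENNReal.ofReal_add (by positivity) (by positivity),
          ← ENNReal.ofReal_add (by positivity) (by positivity)]
    _ ≤ _ := by
        apply ENNReal.ofReal_le_ofReal
        rw [hsq]
        set C := 4 * Cc + 1 + 4 * Ct + 4 * Cp + Kf with hC
        have hC0 : 0 < C := by positivity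
        have f1 : 4 * Cc * E + (1 * E + (4 * Ct * E + 4 * Cp * E)) ≤
            C * Real.exp (-(N : ℝ) ^ min cm cx) := by
          have g1 : E ≤ Real.exp (-(N : ℝ) ^ min cm cx) :=
            exp_anti_rpow hNr (min_le_left _ _)
          calc 4 * Cc * E + (1 * E + (4 * Ct * E + 4 * Cp * E)) =
                (4 * Cc + 1 + 4 * Ct + 4 * Cp) * E := by ring
            _ ≤ C * E := mul_le_mul_of_nonneg_right (by rw [hC]; linarith only [hKf0]) hE0.le
            _ ≤ _ := mul_le_mul_of_nonneg_left g1 hC0.le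
        have f2 : Kf * Real.exp (-(cx * x ^ st)) * Real.exp (-(M / 4 * d)) ≤
            C * Real.exp (-(M / 4 * d)) * Real.exp (-(min cm cx * x ^ st)) := by
          have hxs : 0 ≤ x ^ st := Real.rpow_nonneg hx0 _
          have g1 : Real.exp (-(cx * x ^ st)) ≤ Real.exp (-(min cm cx * x ^ st)) := by
            apply Real.exp_le_exp.2
            have := mul_le_mul_of_nonneg_right (min_le_right cm cx) hxs
            linarith
          have g2 : Kf ≤ C := by rw [hC]; linarith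
          calc Kf * Real.exp (-(cx * x ^ st)) * Real.exp (-(M / 4 * d)) ≤
                C * Real.exp (-(min cm cx * x ^ st)) * Real.exp (-(M / 4 * d)) := by
                gcongr
            _ = _ := by ring
        linarith only [f1, f2]

end Pool.Agent.H29.ND
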