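import Pool.Agent.H76.ND.Targets

/-!
# Part D of MP_57ddd5_pr: the solution of the slope recursion
-/

namespace Pool.Agent.H29.ND

open Pool.Agent.H99.NS Pool.Agent.H22.LPP Pool.Agent.H95.INS Pool.Agent.H76.ND

theorem ds_succ_le (k i : ℕ) : ds k (i + 1) ≤ ds k i + 1 := by
  unfold ds; omega

theorem pow_ds_succ_le (k i : ℕ) :
    (101 / 100 : ℝ) ^ ds k (i + 1) ≤ 101 / 100 * (101 / 100) ^ ds k i := by
  calc (101 / 100 : ℝ) ^ ds k (i + 1) ≤ (101 / 100) ^ (ds k i + 1) :=
        pow_le_pow_right₀ (by norm_num) (ds_succ_le k i)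
    _ = 101 / 100 * (101 / 100) ^ ds k i := by rw [pow_succ]; ring

theorem rec_aux (D : ℕ → ℝ) (C : ℝ) (a I k : ℕ) (hC : 0 ≤ C)
    (h : ∀ i, a + 1 ≤ i → i ≤ I → D i ≤ 3 / 8 * D (i + 1) + C * (101 / 100) ^ ds k i) :
    ∀ n i : ℕ, i + n = I + 1 → a + 1 ≤ i →
      D i ≤ (3 / 8) ^ n * D (I + 1) + 2 * C * (101 / 100) ^ ds k i := by
  intro n
  induction n with
  | zero =>
    intro i hi _
    have : i = I + 1 := by omega
    subst this
    have : 0 ≤ 2 * C * (101 / 100 : ℝ) ^ ds k (I + 1) := by positivity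
    simpa using this
  | succ n ih =>
    intro i hi ha
    have h1 := h i ha (by omega)
    have h2 := ih (i + 1) (by omega) (by omega)
    have h3 := mul_le_mul_of_nonneg_left (pow_ds_succ_le k i) (by positivity : 0 ≤ 2 * C)
    have h4 : 0 ≤ C * (101 / 100 : ℝ) ^ ds k i := by positivity
    rw [pow_succ]
    nlinarith

theorem pf_REC : T_REC := by
  intro D C a I k hC _ h i hi hI
  have := rec_aux D C a I k hC h (I + 1 - i) i (by omega) hi
  exact this

end Pool.Agent.H29.ND
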